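import Pool.Agent.helper48.PP.Defs

/-!
Standardisation of finite sets with two injective keys, and shuffles.
-/

namespace Pool.Agent.helper48.PP

open Equiv Finset Function

theorem rk_unique {X : Type*} {n : ℕ} (e e' : X ≃ Fin n) (h : ∀ x y, e x < e y ↔ e' x < e' y) :
    e = e' := by
  let φ : Fin n ≃o Fin n :=
    { toEquiv := e.symm.trans e'
      map_rel_iff' := by
        intro a b
        have h1 := h (e.symm b) (e.symm a)
        rw [Equiv.apply_symm_apply, Equiv.apply_symm_apply] at h1
        simp only [Equiv.trans_apply]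
        rw [← not_lt, ← not_lt, h1] }
  have hφ : φ = OrderIso.refl _ := Subsingleton.elim _ _
  ext x
  have h2 := congrArg (fun f : Fin n ≃o Fin n => f (e x)) hφ
  have h3 : φ (e x) = e' x := by
    change (e.symm.trans e') (e x) = e' x
    simp
  simp only [OrderIso.refl_apply] at h2
  rw [← h2, h3]

theorem exists_rk {X : Type*} [Fintype X] {n : ℕ} (hn : Fintype.card X = n) (f : X → ℕ)
    (hf : Injective f) : ∃ e : X ≃ Fin n, ∀ x y, e x < e y ↔ f x < f y := by
  letI := LinearOrder.lift' f hf
  let e := (Fintype.orderIsoFinOfCardEq X hn).symm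
  exact ⟨e.toEquiv, fun a b => e.lt_iff_lt⟩

/-- The rank of the elements of `X`, sorted by an injective key. -/
noncomputable def rk {X : Type*} [Fintype X] {n : ℕ} (hn : Fintype.card X = n) (f : X → ℕ)
    (hf : Injective f) : X ≃ Fin n := (exists_rk hn f hf).choose

theorem rk_lt {X : Type*} [Fintype X] {n : ℕ} (hn : Fintype.card X = n) (f : X → ℕ)
    (hf : Injective f) (x y : X) : rk hn f hf x < rk hn f hf y ↔ f x < f y :=
  (exists_rk hn f hf).choose_spec x y

theorem rk_val {X : Type*} [Fintype X] [DecidableEq X] {n : ℕ} (hn : Fintype.card X = n)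
    (f : X → ℕ) (hf : Injective f) (x : X) :
    (rk hn f hf x : ℕ) = (Finset.univ.filter fun y => f y < f x).card := by
  have h1 : ((Finset.univ.filter fun y => f y < f x).map (rk hn f hf).toEmbedding) =
      Finset.Iio (rk hn f hf x) := by
    ext i
    rw [Finset.mem_map, Finset.mem_Iio]
    constructor
    · rintro ⟨y, hy, rfl⟩
      rw [Finset.mem_filter] at hy
      exact (rk_lt hn f hf y x).mpr hy.2
    · intro hi
      refine ⟨(rk hn f hf).symm i, ?_, by simp⟩
      rw [Finset.mem_filter]
      refine ⟨Finset.mem_univ _, ?_⟩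
      rw [← rk_lt hn f hf, Equiv.apply_symm_apply]
      exact hi
  rw [← Finset.card_map (rk hn f hf).toEmbedding, h1, Fin.card_Iio]

/-- If the elements with key at most that of `x` are listed by an injection from
`{0, ..., c}`, sorted, then the rank of `x` is `c`. -/
theorem rk_eq_of {X : Type*} [Fintype X] {n : ℕ} (hn : Fintype.card X = n)
    (f : X → ℕ) (hf : Injective f) (x : X) {N : ℕ} (ι : Fin N → X) (hι : Injective ι) (c : Fin N)
    (h : ∀ y, f y < f x ↔ ∃ i, i < c ∧ ι i = y) : (rk hn f hf x : ℕ) = c := by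
  classical
  rw [rk_val]
  have : (Finset.univ.filter fun y => f y < f x) = (Finset.Iio c).image ι := by
    ext y
    rw [Finset.mem_filter, Finset.mem_image, h y]
    constructor
    · rintro ⟨-, i, hi, rfl⟩; exact ⟨i, Finset.mem_Iio.mpr hi, rfl⟩
    · rintro ⟨i, hi, rfl⟩; exact ⟨Finset.mem_univ _, i, Finset.mem_Iio.mp hi, rfl⟩
  rw [this, Finset.card_image_of_injective _ hι, Fin.card_Iio]

theorem strictMono_eq_id {n : ℕ} {f : Fin n → Fin n} (hf : StrictMono f) (x : Fin n) : f x = x :=
  le_antisymm hf.apply_le hf.le_apply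

/-- The permutation with the positions sorted by `f` and the values sorted by `g`. -/
noncomputable def std {X : Type*} [Fintype X] {n : ℕ} (hn : Fintype.card X = n) (f g : X → ℕ)
    (hf : Injective f) (hg : Injective g) : Perm (Fin n) :=
  (rk hn f hf).symm.trans (rk hn g hg)

theorem std_apply {X : Type*} [Fintype X] {n : ℕ} (hn : Fintype.card X = n) (f g : X → ℕ)
    (hf : Injective f) (hg : Injective g) (x : X) :
    std hn f g hf hg (rk hn f hf x) = rk hn g hg x := by
  simp [std]

/-- Shuffles of `M` and `q` objects. -/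
noncomputable def shf {M q : ℕ} (a : Finset (Fin (M + q))) (ha : a.card = q) :
    Fin M ⊕ Fin q ≃ Fin (M + q) :=
  (Equiv.sumComm _ _).trans (finSumEquivOfFinset ha (by
    rw [Finset.card_compl, Fintype.card_fin, ha]; omega))

theorem shf_inl {M q : ℕ} (a : Finset (Fin (M + q))) (ha : a.card = q) :
    StrictMono fun i : Fin M => shf a ha (Sum.inl i) := by
  intro i j hij
  simp only [shf, Equiv.trans_apply, Equiv.sumComm_apply, Sum.swap_inl, finSumEquivOfFinset_inr]
  exact (Finset.orderEmbOfFin _ _).strictMono hij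

theorem shf_inr {M q : ℕ} (a : Finset (Fin (M + q))) (ha : a.card = q) :
    StrictMono fun i : Fin q => shf a ha (Sum.inr i) := by
  intro i j hij
  simp only [shf, Equiv.trans_apply, Equiv.sumComm_apply, Sum.swap_inr, finSumEquivOfFinset_inl]
  exact (Finset.orderEmbOfFin _ _).strictMono hij

theorem shf_mem {M q : ℕ} (a : Finset (Fin (M + q))) (ha : a.card = q) (z : Fin (M + q)) :
    z ∈ a ↔ ∃ i, shf a ha (Sum.inr i) = z := by
  simp only [shf, Equiv.trans_apply, Equiv.sumComm_apply, Sum.swap_inr, finSumEquivOfFinset_inl]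
  have h := Finset.range_orderEmbOfFin a ha
  rw [← Finset.mem_coe, ← h, Set.mem_range]

theorem shf_inj {M q : ℕ} {a a' : Finset (Fin (M + q))} {ha : a.card = q} {ha' : a'.card = q}
    (h : ∀ i u, shf a ha (Sum.inl i) < shf a ha (Sum.inr u) ↔
      shf a' ha' (Sum.inl i) < shf a' ha' (Sum.inr u)) : a = a' := by
  have key : shf a ha = shf a' ha' := by
    refine rk_unique _ _ fun x y => ?_
    rcases x with i | u <;> rcases y with j | v
    · rw [(shf_inl a ha).lt_iff_lt, (shf_inl a' ha').lt_iff_lt]
    · exact h i v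
    · have h1 := h j u
      have n1 : shf a ha (Sum.inl j) ≠ shf a ha (Sum.inr u) := by
        intro hh; exact absurd ((shf a ha).injective hh) (by simp)
      have n2 : shf a' ha' (Sum.inl j) ≠ shf a' ha' (Sum.inr u) := by
        intro hh; exact absurd ((shf a' ha').injective hh) (by simp)
      rw [← not_le, ← not_le, n1.le_iff_lt, n2.le_iff_lt, h1]
    · rw [(shf_inr a ha).lt_iff_lt, (shf_inr a' ha').lt_iff_lt]
  ext z
  rw [shf_mem a ha, shf_mem a' ha', key]

theorem avCount_eq {k : ℕ} (n : ℕ) (p : Perm (Fin k)) :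
    avCount n p = Nat.card {w : Perm (Fin n) // ¬ Contains w p} := by
  classical
  rw [Nat.card_eq_fintype_card, Fintype.card_subtype]
  unfold avCount
  congr

end Pool.Agent.helper48.PP
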