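import Pool.Agent.helper48.PP.StageInj

/-!
Counting: iteration of the stages, skew sums.
-/

namespace Pool.Agent.helper48.PP

open Equiv Finset Function

variable {k N M q j : ℕ}

/-- Units in decreasing order of values. -/
noncomputable def shb (b : Finset (Fin (M + q))) (hb : b.card = q) :
    Fin M ⊕ Fin q ≃ Fin (M + q) :=
  (Equiv.sumCongr (Equiv.refl _) Fin.revPerm).trans (shf b hb)

theorem shb_inl (b : Finset (Fin (M + q))) (hb : b.card = q) :
    StrictMono fun i : Fin M => shb b hb (Sum.inl i) := by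
  intro i i' h
  simpa [shb] using shf_inl b hb h

theorem shb_inr (b : Finset (Fin (M + q))) (hb : b.card = q) :
    StrictAnti fun i : Fin q => shb b hb (Sum.inr i) := by
  intro i i' h
  have := shf_inr b hb (show Fin.rev i' < Fin.rev i from Fin.rev_lt_rev.mpr h)
  simpa [shb] using this

theorem shb_inj {b b' : Finset (Fin (M + q))} {hb : b.card = q} {hb' : b'.card = q}
    (h : ∀ i u, shb b hb (Sum.inl i) < shb b hb (Sum.inr u) ↔
      shb b' hb' (Sum.inl i) < shb b' hb' (Sum.inr u)) : b = b' := by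
  refine shf_inj (ha := hb) (ha' := hb') fun i u => ?_
  have := h i (Fin.rev u)
  simpa [shb] using this

theorem stage_count {p : Perm (Fin k)} (hp : SkewIndec p) (hNM : M ≤ N) :
    Nat.card {w : Perm (Fin N) // GoodP M p w} *
      (avCount M p * ((M + q).choose q * ((M + q).choose q * q.choose j))) ≤
    Nat.card {w : Perm (Fin (N + (M + (q + j)))) // GoodP M p w} := by
  classical
  let T := {w : Perm (Fin N) // GoodP M p w} × ({σ : Perm (Fin M) // ¬ Contains σ p} ×
    ({a : Finset (Fin (M + q)) // a.card = q} × ({b : Finset (Fin (M + q)) // b.card = q} ×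
      {D : Finset (Fin q) // D.card = j})))
  have hT : Nat.card T = Nat.card {w : Perm (Fin N) // GoodP M p w} *
      (avCount M p * ((M + q).choose q * ((M + q).choose q * q.choose j))) := by
    simp only [T, Nat.card_prod]
    rw [avCount_eq]
    congr 2
    congr 1
    · rw [Nat.card_eq_fintype_card, Fintype.card_finset_len, Fintype.card_fin]
    congr 1
    · rw [Nat.card_eq_fintype_card, Fintype.card_finset_len, Fintype.card_fin]
    · rw [Nat.card_eq_fintype_card, Fintype.card_finset_len, Fintype.card_fin]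
  rw [← hT]
  let F : T → {w : Perm (Fin (N + (M + (q + j)))) // GoodP M p w} := fun t =>
    ⟨nperm t.1.1 t.2.1.1 (shf t.2.2.1.1 t.2.2.1.2) (shb t.2.2.2.1.1 t.2.2.2.1.2)
      (t.2.2.2.2.1.orderEmbOfFin t.2.2.2.2.2) (RelEmbedding.injective _),
      goodP_nperm hp t.1.2 t.2.1.2 (shf_inl _ _) (shf_inr _ _) (shb_inl _ _) (shb_inr _ _)
        (RelEmbedding.injective _)⟩
  refine Nat.card_le_card_of_injective F ?_
  rintro ⟨⟨w, hw⟩, ⟨σ, hσ⟩, ⟨a, ha⟩, ⟨b, hb⟩, ⟨D, hD⟩⟩ ⟨⟨w', hw'⟩, ⟨σ', hσ'⟩, ⟨a', ha'⟩, ⟨b', hb'⟩,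
    ⟨D', hD'⟩⟩ h
  have h1 := congrArg Subtype.val h
  simp only [F] at h1
  obtain ⟨e1, e2, e3, e4, e5⟩ := stage_inj hNM (shf_inl _ _) (shf_inr _ _) (shb_inl _ _)
    (shb_inr _ _) (D.orderEmbOfFin hD).strictMono (shf_inl _ _) (shf_inr _ _) (shb_inl _ _)
    (shb_inr _ _) (D'.orderEmbOfFin hD').strictMono h1
  have e6 := shf_inj e3
  have e7 := shb_inj e4
  have e8 : D = D' := by
    rw [← Finset.coe_inj, ← Finset.range_orderEmbOfFin D hD, ← Finset.range_orderEmbOfFin D' hD',
      e5]
  subst e1 e2 e6 e7 e8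
  rfl

theorem goodP_start {p : Perm (Fin k)} {σ : Perm (Fin M)} (hσ : ¬ Contains σ p) :
    GoodP M p σ := by
  refine ⟨fun _ => False, ⟨fun h _ hm hi => ?_, fun _ _ hx => absurd hx (fun h => h),
    fun _ _ _ hx => absurd hx (fun h => h)⟩, fun _ _ h => h⟩
  exact hσ ⟨h, fun s t hst => hm s t hst, fun s t => hi s t⟩

theorem iter_count {p : Perm (Fin k)} (hp : SkewIndec p) (M q j : ℕ) (h1 : 1 ≤ avCount M p)
    (K : ℕ) :
    (avCount M p * ((M + q).choose q * ((M + q).choose q * q.choose j))) ^ K ≤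
      Nat.card {w : Perm (Fin (M + K * (M + (q + j)))) // GoodP M p w} := by
  induction K with
  | zero =>
    rw [pow_zero, zero_mul, add_zero]
    refine h1.trans ?_
    rw [avCount_eq]
    refine Nat.card_le_card_of_injective (fun σ => ⟨σ.1, goodP_start σ.2⟩) ?_
    intro σ σ' h
    exact Subtype.ext (congrArg (fun x => x.1) h)
  | succ K ih =>
    have h2 := stage_count (q := q) (j := j) hp (show M ≤ M + K * (M + (q + j)) by omega)
    have h3 : M + (K + 1) * (M + (q + j)) = M + K * (M + (q + j)) + (M + (q + j)) := by ring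
    rw [h3, pow_succ]
    exact (Nat.mul_le_mul_right _ ih).trans h2

/-- The lower bound for the avoiders of `p ⊕ 1`. -/
theorem lower_count {p : Perm (Fin (k + 1))} (hp : SkewIndec p)
    (hlast : p (Fin.last k) ≠ Fin.last k) (M q j : ℕ) (h1 : 1 ≤ avCount M p) (K : ℕ) :
    (avCount M p * ((M + q).choose q * ((M + q).choose q * q.choose j))) ^ K ≤
      avCount (M + K * (M + (q + j))) (dsum p (1 : Perm (Fin 1))) := by
  refine (iter_count hp M q j h1 K).trans ?_
  rw [avCount_eq]
  refine Nat.card_le_card_of_injective (fun w => ⟨w.1, w.2.avoid hlast⟩) ?_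
  intro σ σ' h
  exact Subtype.ext (congrArg (fun x => x.1) h)

/-- Skew sum. -/
def ssum {m n : ℕ} (v : Perm (Fin m)) (w : Perm (Fin n)) : Perm (Fin (m + n)) :=
  (finSumFinEquiv.symm.trans (Equiv.sumCongr v w)).trans
    ((Equiv.sumComm _ _).trans (finSumFinEquiv.trans (finCongr (Nat.add_comm n m))))

theorem ssum_castAdd {m n : ℕ} (v : Perm (Fin m)) (w : Perm (Fin n)) (s : Fin m) :
    (ssum v w (Fin.castAdd n s) : ℕ) = n + v s := by
  simp [ssum, Nat.add_comm]

theorem ssum_natAdd {m n : ℕ} (v : Perm (Fin m)) (w : Perm (Fin n)) (s : Fin n) :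
    (ssum v w (Fin.natAdd m s) : ℕ) = w s := by
  simp [ssum]

theorem ssum_avoid {m n : ℕ} {p : Perm (Fin k)} (hp : SkewIndec p) {v : Perm (Fin m)}
    {w : Perm (Fin n)} (hv : ¬ Contains v p) (hw : ¬ Contains w p) :
    ¬ Contains (ssum v w) p := by
  rintro ⟨f, hf, hf'⟩
  by_cases hold : ∀ s, ∃ i, f s = Fin.castAdd n i
  · choose g hg using hold
    refine hv ⟨g, fun s t hst => ?_, fun s t => ?_⟩
    · have := hf hst
      rw [hg s, hg t] at this
      exact castAdd_lt.mp this
    · rw [← hf', hg s, hg t, Fin.lt_def, Fin.lt_def, ssum_castAdd, ssum_castAdd]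
      omega
  · push Not at hold
    obtain ⟨t₀, ht₀⟩ := hold
    by_cases hnew : ∀ s, ∃ i, f s = Fin.natAdd m i
    · choose g hg using hnew
      refine hw ⟨g, fun s t hst => ?_, fun s t => ?_⟩
      · have := hf hst
        rw [hg s, hg t] at this
        exact natAdd_lt.mp this
      · rw [← hf', hg s, hg t, Fin.lt_def, Fin.lt_def, ssum_natAdd, ssum_natAdd]
    · push Not at hnew
      obtain ⟨s₀, hs₀⟩ := hnew
      have dich : ∀ x : Fin (m + n), (∃ i, x = Fin.castAdd n i) ∨ ∃ i, x = Fin.natAdd m i := by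
        intro x
        induction x using Fin.addCases with
        | left i => exact Or.inl ⟨i, rfl⟩
        | right i => exact Or.inr ⟨i, rfl⟩
      obtain ⟨i, jj, h1, h2, h3⟩ := hp.split (S := fun s => ∃ i, f s = Fin.castAdd n i)
        (fun s t hst ht => by
          obtain ⟨i, hi⟩ := ht
          rcases dich (f s) with h | ⟨i', hi'⟩
          · exact h
          · exfalso
            have := hf hst
            rw [hi, hi', Fin.lt_def] at this
            simp at this
            omega) (s₀ := s₀) (by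
          rcases dich (f s₀) with h | ⟨i', hi'⟩
          · exact h
          · exact absurd hi' (hs₀ i')) (t₀ := t₀) (fun ⟨i, hi⟩ => ht₀ i hi)
      obtain ⟨i', hi'⟩ := h1
      rcases dich (f jj) with h | ⟨j', hj'⟩
      · exact h2 h
      · have := (hf' i jj).mpr h3
        rw [hi', hj', Fin.lt_def, ssum_castAdd, ssum_natAdd] at this
        have := (w j').2
        omega

theorem ssum_inj {m n : ℕ} {v v' : Perm (Fin m)} {w w' : Perm (Fin n)}
    (h : ssum v w = ssum v' w') : v = v' ∧ w = w' := by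
  constructor
  · ext s
    have := congrArg (fun u : Perm (Fin (m + n)) => (u (Fin.castAdd n s) : ℕ)) h
    simp only [ssum_castAdd] at this
    omega
  · ext s
    have := congrArg (fun u : Perm (Fin (m + n)) => (u (Fin.natAdd m s) : ℕ)) h
    simpa only [ssum_natAdd] using this

/-- Supermultiplicativity. -/
theorem avCount_mul {p : Perm (Fin k)} (hp : SkewIndec p) (m n : ℕ) :
    avCount m p * avCount n p ≤ avCount (m + n) p := by
  rw [avCount_eq, avCount_eq, avCount_eq, ← Nat.card_prod]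
  refine Nat.card_le_card_of_injective (fun t => ⟨ssum t.1.1 t.2.1, ssum_avoid hp t.1.2 t.2.2⟩) ?_
  rintro ⟨⟨v, hv⟩, ⟨w, hw⟩⟩ ⟨⟨v', hv'⟩, ⟨w', hw'⟩⟩ h
  have h1 := ssum_inj (congrArg Subtype.val h)
  simp only at h1
  obtain ⟨e1, e2⟩ := h1
  subst e1 e2
  rfl

theorem not_contains_of_lt {n : ℕ} (h : n < k) (w : Perm (Fin n)) (p : Perm (Fin k)) :
    ¬ Contains w p := by
  rintro ⟨f, hf, -⟩
  have := Fintype.card_le_of_injective f hf.injective
  rw [Fintype.card_fin, Fintype.card_fin] at this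
  omega

theorem one_le_avCount_of_lt {n : ℕ} (h : n < k) (p : Perm (Fin k)) : 1 ≤ avCount n p := by
  rw [avCount_eq, Nat.one_le_iff_ne_zero, ← Nat.pos_iff_ne_zero]
  have : Nonempty {w : Perm (Fin n) // ¬ Contains w p} := ⟨⟨1, not_contains_of_lt h 1 p⟩⟩
  exact Nat.card_pos

theorem avCount_succ {p : Perm (Fin k)} (hp : SkewIndec p) (hk : 1 < k) (n : ℕ) :
    avCount n p ≤ avCount (n + 1) p := by
  have h1 := avCount_mul hp n 1
  have h2 := one_le_avCount_of_lt hk p
  nlinarith

theorem avCount_monotone {p : Perm (Fin k)} (hp : SkewIndec p) (hk : 1 < k) :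
    Monotone fun n => avCount n p :=
  monotone_nat_of_le_succ fun n => avCount_succ hp hk n

theorem one_le_avCount {p : Perm (Fin k)} (hp : SkewIndec p) (hk : 1 < k) (n : ℕ) :
    1 ≤ avCount n p :=
  (one_le_avCount_of_lt (show 0 < k by omega) p).trans (avCount_monotone hp hk (Nat.zero_le n))

/-- Direct sums of nonempty patterns are not skew sums. -/
theorem skewIndec_dsum {a b : ℕ} (ha : 0 < a) (hb : 0 < b) (x : Perm (Fin a)) (y : Perm (Fin b)) :
    SkewIndec (dsum x y) := by
  intro c hc hck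
  refine ⟨Fin.castAdd b ⟨0, ha⟩, Fin.natAdd a ⟨b - 1, by omega⟩, ?_, ?_, ?_⟩
  · simpa using hc
  · simp; omega
  · rw [dsum_castAdd, dsum_natAdd, Fin.lt_def]
    simp
    omega

end Pool.Agent.helper48.PP
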