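import Pool.Agent.helper48.PP.Defs

/-!
The theorem of Marcus and Tardos (Füredi-Hajnal conjecture) and Klazar's deduction of the
Stanley-Wilf conjecture: the number of permutations of length `n` avoiding a fixed pattern is at
most `c ^ n`.
-/

namespace Pool.Agent.helper48.PP

open Equiv Finset

/-- The zero-one matrix `A` (a finite set of cells) contains the permutation matrix of `p`. -/
def MC {k : ℕ} (A : Finset (ℕ × ℕ)) (p : Perm (Fin k)) : Prop :=
  ∃ f g : Fin k → ℕ, StrictMono f ∧ StrictMono g ∧ ∀ s, (f s, g (p s)) ∈ A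

/-- Contraction of blocks of side `B`. -/
def blk (B : ℕ) (A : Finset (ℕ × ℕ)) : Finset (ℕ × ℕ) := A.image fun z => (z.1 / B, z.2 / B)

theorem MC.mono {k : ℕ} {A A' : Finset (ℕ × ℕ)} {p : Perm (Fin k)} (h : A ⊆ A') (hA : MC A p) :
    MC A' p := by
  obtain ⟨f, g, hf, hg, h'⟩ := hA
  exact ⟨f, g, hf, hg, fun s => h (h' s)⟩

theorem lt_of_div_lt {B a b : ℕ} (h : a / B < b / B) : a < b := by
  by_contra hc
  exact absurd (Nat.div_le_div_right (c := B) (not_lt.mp hc)) (not_le.mpr h)

theorem MC_of_blk {k B : ℕ} {A : Finset (ℕ × ℕ)} {p : Perm (Fin k)} (h : MC (blk B A) p) :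
    MC A p := by
  obtain ⟨f, g, hf, hg, h⟩ := h
  have h2 : ∀ s, ∃ z ∈ A, z.1 / B = f s ∧ z.2 / B = g (p s) := by
    intro s
    have := h s
    rw [blk, Finset.mem_image] at this
    obtain ⟨z, hz, hz2⟩ := this
    exact ⟨z, hz, congrArg Prod.fst hz2, congrArg Prod.snd hz2⟩
  choose z hz h1 h2 using h2
  refine ⟨fun s => (z s).1, fun t => (z (p.symm t)).2, ?_, ?_, fun s => ?_⟩
  · intro s t hst
    exact lt_of_div_lt (B := B) (by rw [h1, h1]; exact hf hst)
  · intro s t hst
    refine lt_of_div_lt (B := B) ?_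
    rw [h2, h2, Equiv.apply_symm_apply, Equiv.apply_symm_apply]
    exact hg hst
  · simpa using hz s

theorem MC_swap {k : ℕ} {A : Finset (ℕ × ℕ)} {p : Perm (Fin k)}
    (h : MC (A.image Prod.swap) p.symm) : MC A p := by
  obtain ⟨f, g, hf, hg, h⟩ := h
  refine ⟨g, f, hg, hf, fun s => ?_⟩
  have := h (p s)
  rw [Equiv.symm_apply_apply, Finset.mem_image] at this
  obtain ⟨z, hz, hz2⟩ := this
  have : z = (g s, f (p s)) := by
    rw [Prod.swap_eq_iff_eq_swap] at hz2
    exact hz2
  rwa [this] at hz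

/-- The second coordinates present in the block `(u, v)`. -/
def cols (B : ℕ) (A : Finset (ℕ × ℕ)) (u v : ℕ) : Finset ℕ :=
  (A.filter fun z => z.1 / B = u ∧ z.2 / B = v).image Prod.snd

theorem mem_cols {B : ℕ} {A : Finset (ℕ × ℕ)} {u v c : ℕ} :
    c ∈ cols B A u v ↔ ∃ r, (r, c) ∈ A ∧ r / B = u ∧ c / B = v := by
  rw [cols, Finset.mem_image]
  constructor
  · rintro ⟨⟨r, c'⟩, h1, h2⟩
    rw [Finset.mem_filter] at h1
    simp only at h2
    subst h2
    exact ⟨r, h1.1, h1.2.1, h1.2.2⟩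
  · rintro ⟨r, h1, h2, h3⟩
    exact ⟨(r, c), by rw [Finset.mem_filter]; exact ⟨h1, h2, h3⟩, rfl⟩

/-- In a block column there are few wide blocks. -/
theorem wide_count {k B m v : ℕ} (hB : 0 < B) {A : Finset (ℕ × ℕ)} {p : Perm (Fin k)}
    (hA : ¬ MC A p) :
    ((Finset.range m).filter fun u => k ≤ (cols B A u v).card).card ≤ k * B.choose k := by
  classical
  by_contra hc
  push Not at hc
  set W := (Finset.range m).filter fun u => k ≤ (cols B A u v).card with hW
  have hsub : ∀ u ∈ W, ∃ S : Finset ℕ, S ⊆ cols B A u v ∧ S.card = k := by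
    intro u hu
    rw [hW, Finset.mem_filter] at hu
    exact Finset.exists_subset_card_eq hu.2
  choose! S hS hSk using hsub
  have hmap : ∀ u ∈ W, S u ∈ (Finset.Ico (v * B) (v * B + B)).powersetCard k := by
    intro u hu
    rw [Finset.mem_powersetCard]
    refine ⟨fun c hc => ?_, hSk u hu⟩
    obtain ⟨r, -, -, h3⟩ := mem_cols.mp (hS u hu hc)
    rw [Finset.mem_Ico]
    have h4 := Nat.div_add_mod c B
    have h5 := Nat.mod_lt c hB
    rw [h3, mul_comm] at h4
    omega
  have hcard : ((Finset.Ico (v * B) (v * B + B)).powersetCard k).card * k < W.card := by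
    rw [Finset.card_powersetCard, Nat.card_Ico, Nat.add_sub_cancel_left, mul_comm]
    exact hc
  obtain ⟨T, hT, hTk⟩ := Finset.exists_lt_card_fiber_of_mul_lt_card_of_maps_to hmap hcard
  obtain ⟨F, hF, hFk⟩ := Finset.exists_subset_card_eq (le_of_lt hTk)
  rw [Finset.mem_powersetCard] at hT
  have hmem : ∀ s t : Fin k, ∃ r, (r, T.orderEmbOfFin hT.2 t) ∈ A ∧
      r / B = F.orderEmbOfFin hFk s := by
    intro s t
    have h1 : F.orderEmbOfFin hFk s ∈ F := Finset.orderEmbOfFin_mem F hFk s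
    have h2 := hF h1
    rw [Finset.mem_filter] at h2
    have h3 : T.orderEmbOfFin hT.2 t ∈ S (F.orderEmbOfFin hFk s) := by
      rw [h2.2]; exact Finset.orderEmbOfFin_mem T hT.2 t
    obtain ⟨r, h4, h5, -⟩ := mem_cols.mp (hS _ h2.1 h3)
    exact ⟨r, h4, h5⟩
  choose r hr hr2 using hmem
  apply hA
  refine ⟨fun s => r s (p s), fun t => T.orderEmbOfFin hT.2 t, ?_,
    (T.orderEmbOfFin hT.2).strictMono, fun s => hr s (p s)⟩
  intro s t hst
  refine lt_of_div_lt (B := B) ?_
  rw [hr2, hr2]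
  exact (F.orderEmbOfFin hFk).strictMono hst

theorem cols_card_le {B : ℕ} (hB : 0 < B) (A : Finset (ℕ × ℕ)) (u v : ℕ) :
    (cols B A u v).card ≤ B := by
  have : cols B A u v ⊆ Finset.Ico (v * B) (v * B + B) := by
    intro c hc
    obtain ⟨r, -, -, h3⟩ := mem_cols.mp hc
    rw [Finset.mem_Ico]
    have h4 := Nat.div_add_mod c B
    have h5 := Nat.mod_lt c hB
    rw [h3, mul_comm] at h4
    omega
  calc _ ≤ _ := Finset.card_le_card this
    _ = B := by rw [Nat.card_Ico, Nat.add_sub_cancel_left]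

theorem cell_subset (B : ℕ) (A : Finset (ℕ × ℕ)) (u v : ℕ) :
    (A.filter fun z => (z.1 / B, z.2 / B) = (u, v)) ⊆
      cols B (A.image Prod.swap) v u ×ˢ cols B A u v := by
  intro z hz
  rw [Finset.mem_filter, Prod.mk.injEq] at hz
  rw [Finset.mem_product]
  constructor
  · rw [mem_cols]
    exact ⟨z.2, Finset.mem_image.mpr ⟨z, hz.1, rfl⟩, hz.2.2, hz.2.1⟩
  · rw [mem_cols]
    exact ⟨z.1, hz.1, hz.2.1, hz.2.2⟩

theorem cell_card {k B : ℕ} (hB : 0 < B) (A : Finset (ℕ × ℕ)) (u v : ℕ) :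
    (A.filter fun z => (z.1 / B, z.2 / B) = (u, v)).card ≤ k ^ 2 +
      ((if k < (cols B A u v).card then B ^ 2 else 0) +
       (if k < (cols B (A.image Prod.swap) v u).card then B ^ 2 else 0)) := by
  have h1 := Finset.card_le_card (cell_subset B A u v)
  rw [Finset.card_product] at h1
  have h2 := cols_card_le hB A u v
  have h3 := cols_card_le hB (A.image Prod.swap) v u
  have h4 : (cols B (A.image Prod.swap) v u).card * (cols B A u v).card ≤ B ^ 2 := by
    rw [pow_two]; exact Nat.mul_le_mul h3 h2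
  split_ifs with h5 h6 h6
  · omega
  · omega
  · omega
  · push Not at h5 h6
    have : (cols B (A.image Prod.swap) v u).card * (cols B A u v).card ≤ k ^ 2 := by
      rw [pow_two]; exact Nat.mul_le_mul h6 h5
    omega

/-- The Marcus-Tardos recursion. -/
theorem mt_step {k B m : ℕ} (hB : 0 < B) {A : Finset (ℕ × ℕ)} {p : Perm (Fin (k + 1))}
    (hA : ¬ MC A p) (hsub : A ⊆ Finset.range (B * m) ×ˢ Finset.range (B * m)) :
    A.card ≤ k ^ 2 * (blk B A).card + 2 * (m * ((k + 1) * B.choose (k + 1))) * B ^ 2 := by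
  classical
  have hA' : ¬ MC (A.image Prod.swap) p.symm := fun h => hA (MC_swap h)
  have h1 : A.card = ∑ w ∈ blk B A, (A.filter fun z => (z.1 / B, z.2 / B) = w).card :=
    Finset.card_eq_sum_card_image _ _
  have hblk : blk B A ⊆ Finset.range m ×ˢ Finset.range m := by
    intro w hw
    rw [blk, Finset.mem_image] at hw
    obtain ⟨z, hz, rfl⟩ := hw
    have := hsub hz
    rw [Finset.mem_product, Finset.mem_range, Finset.mem_range] at this
    rw [Finset.mem_product, Finset.mem_range, Finset.mem_range]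
    exact ⟨Nat.div_lt_of_lt_mul this.1, Nat.div_lt_of_lt_mul this.2⟩
  have h2 : ∑ w ∈ blk B A, (A.filter fun z => (z.1 / B, z.2 / B) = w).card ≤
      ∑ w ∈ blk B A, (k ^ 2 + ((if k < (cols B A w.1 w.2).card then B ^ 2 else 0) +
       (if k < (cols B (A.image Prod.swap) w.2 w.1).card then B ^ 2 else 0))) := by
    refine Finset.sum_le_sum fun w _ => ?_
    exact cell_card hB A w.1 w.2
  have hcol : ∀ (A : Finset (ℕ × ℕ)) (p : Perm (Fin (k + 1))), ¬ MC A p →
      ∀ v, ∑ u ∈ Finset.range m, (if k < (cols B A u v).card then B ^ 2 else 0) ≤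
        ((k + 1) * B.choose (k + 1)) * B ^ 2 := by
    intro A p hA v
    rw [← Finset.sum_filter, Finset.sum_const, smul_eq_mul]
    exact Nat.mul_le_mul_right _ (wide_count hB hA)
  have h3 : ∑ w ∈ Finset.range m ×ˢ Finset.range m,
      (if k < (cols B A w.1 w.2).card then B ^ 2 else 0) ≤
        m * (((k + 1) * B.choose (k + 1)) * B ^ 2) := by
    rw [Finset.sum_product_right]
    calc _ ≤ ∑ v ∈ Finset.range m, (((k + 1) * B.choose (k + 1)) * B ^ 2) :=
          Finset.sum_le_sum fun v _ => hcol A p hA v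
      _ = _ := by rw [Finset.sum_const, Finset.card_range, smul_eq_mul]
  have h4 : ∑ w ∈ Finset.range m ×ˢ Finset.range m,
      (if k < (cols B (A.image Prod.swap) w.2 w.1).card then B ^ 2 else 0) ≤
        m * (((k + 1) * B.choose (k + 1)) * B ^ 2) := by
    rw [Finset.sum_product]
    calc _ ≤ ∑ v ∈ Finset.range m, (((k + 1) * B.choose (k + 1)) * B ^ 2) :=
          Finset.sum_le_sum fun v _ => hcol _ _ hA' v
      _ = _ := by rw [Finset.sum_const, Finset.card_range, smul_eq_mul]
  have h5 := Finset.sum_le_sum_of_subset (f := fun w : ℕ × ℕ =>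
    (if k < (cols B A w.1 w.2).card then B ^ 2 else 0)) hblk
  have h6 := Finset.sum_le_sum_of_subset (f := fun w : ℕ × ℕ =>
    (if k < (cols B (A.image Prod.swap) w.2 w.1).card then B ^ 2 else 0)) hblk
  rw [Finset.sum_add_distrib, Finset.sum_add_distrib, Finset.sum_const, smul_eq_mul] at h2
  have h7 : 2 * (m * ((k + 1) * B.choose (k + 1))) * B ^ 2 =
    m * (((k + 1) * B.choose (k + 1)) * B ^ 2) + m * (((k + 1) * B.choose (k + 1)) * B ^ 2) := by
    ring
  rw [h1, h7, mul_comm (k ^ 2)]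
  omega

theorem blk_avoid {k B : ℕ} {A : Finset (ℕ × ℕ)} {p : Perm (Fin k)} (hA : ¬ MC A p) :
    ¬ MC (blk B A) p := fun h => hA (MC_of_blk h)

/-- Linear bound on the number of cells of a matrix of side `B ^ s` avoiding `p`, where
`B = (k + 1) ^ 2`. -/
theorem fh_bound {k : ℕ} (p : Perm (Fin (k + 1))) (s : ℕ) (A : Finset (ℕ × ℕ))
    (hA : ¬ MC A p) (hsub : A ⊆ Finset.range (((k + 1) ^ 2) ^ s) ×ˢ
      Finset.range (((k + 1) ^ 2) ^ s)) :
    A.card ≤ (2 * ((k + 1) * ((k + 1) ^ 2).choose (k + 1)) * ((k + 1) ^ 2) ^ 2 + 1) *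
      ((k + 1) ^ 2) ^ s := by
  induction s generalizing A with
  | zero =>
    have := Finset.card_le_card hsub
    rw [Finset.card_product, Finset.card_range, pow_zero] at this
    rw [pow_zero]; omega
  | succ s ih =>
    set B := (k + 1) ^ 2 with hB
    have hB0 : 0 < B := by positivity
    set D := 2 * ((k + 1) * B.choose (k + 1)) * B ^ 2 with hD
    have h1 := mt_step (m := B ^ s) hB0 hA (by rwa [← pow_succ'])
    have h2 := ih (blk B A) (blk_avoid hA) (by
      intro w hw
      rw [blk, Finset.mem_image] at hw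
      obtain ⟨z, hz, rfl⟩ := hw
      have := hsub hz
      rw [Finset.mem_product, Finset.mem_range, Finset.mem_range, pow_succ'] at this
      rw [Finset.mem_product, Finset.mem_range, Finset.mem_range]
      exact ⟨Nat.div_lt_of_lt_mul this.1, Nat.div_lt_of_lt_mul this.2⟩)
    calc A.card ≤ _ := h1
      _ = k ^ 2 * (blk B A).card + D * B ^ s := by rw [hD]; ring
      _ ≤ k ^ 2 * ((D + 1) * B ^ s) + D * B ^ s := by gcongr
      _ = (k ^ 2 * (D + 1) + D) * B ^ s := by ring
      _ ≤ ((D + 1) * B) * B ^ s := by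
          gcongr
          rw [hB]
          nlinarith
      _ = (D + 1) * B ^ (s + 1) := by ring

open Classical in
/-- The zero-one matrices of side `n` avoiding `p`. -/
noncomputable def AM {k : ℕ} (n : ℕ) (p : Perm (Fin k)) : Finset (Finset (ℕ × ℕ)) :=
  (Finset.range n ×ˢ Finset.range n).powerset.filter fun A => ¬ MC A p

theorem mem_AM {k n : ℕ} {p : Perm (Fin k)} {A : Finset (ℕ × ℕ)} :
    A ∈ AM n p ↔ A ⊆ Finset.range n ×ˢ Finset.range n ∧ ¬ MC A p := by
  classical
  rw [AM, Finset.mem_filter, Finset.mem_powerset]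

/-- Klazar's step. -/
theorem klazar {k : ℕ} (p : Perm (Fin k)) {B m f : ℕ} (hB : 0 < B)
    (hf : ∀ A ∈ AM m p, A.card ≤ f) :
    (AM (B * m) p).card ≤ 2 ^ (f * B ^ 2) * (AM m p).card := by
  classical
  refine Finset.card_le_mul_card_image_of_maps_to (f := blk B) (fun A hA => ?_) _ fun A' hA' => ?_
  · rw [mem_AM] at hA ⊢
    refine ⟨?_, blk_avoid hA.2⟩
    intro w hw
    rw [blk, Finset.mem_image] at hw
    obtain ⟨z, hz, rfl⟩ := hw
    have := hA.1 hz
    rw [Finset.mem_product, Finset.mem_range, Finset.mem_range] at this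
    rw [Finset.mem_product, Finset.mem_range, Finset.mem_range]
    exact ⟨Nat.div_lt_of_lt_mul this.1, Nat.div_lt_of_lt_mul this.2⟩
  · set X : Finset (ℕ × ℕ) := A'.biUnion fun w =>
      Finset.Ico (w.1 * B) (w.1 * B + B) ×ˢ Finset.Ico (w.2 * B) (w.2 * B + B) with hX
    have hXc : X.card ≤ f * B ^ 2 := by
      refine (Finset.card_biUnion_le_card_mul _ _ (B ^ 2) fun w _ => ?_).trans
        (Nat.mul_le_mul_right _ (hf A' hA'))
      rw [Finset.card_product, Nat.card_Ico, Nat.card_Ico, Nat.add_sub_cancel_left,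
        Nat.add_sub_cancel_left, pow_two]
    have hsub : ((AM (B * m) p).filter fun A => blk B A = A') ⊆ X.powerset := by
      intro A hA
      rw [Finset.mem_filter] at hA
      rw [Finset.mem_powerset]
      intro z hz
      rw [hX, Finset.mem_biUnion]
      refine ⟨(z.1 / B, z.2 / B), ?_, ?_⟩
      · rw [← hA.2, blk, Finset.mem_image]
        exact ⟨z, hz, rfl⟩
      · rw [Finset.mem_product, Finset.mem_Ico, Finset.mem_Ico]
        have h1 := Nat.div_add_mod z.1 B
        have h2 := Nat.mod_lt z.1 hB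
        have h3 := Nat.div_add_mod z.2 B
        have h4 := Nat.mod_lt z.2 hB
        rw [mul_comm] at h1 h3
        simp only
        omega
    calc _ ≤ _ := Finset.card_le_card hsub
      _ = 2 ^ X.card := Finset.card_powerset _
      _ ≤ _ := Nat.pow_le_pow_right (by norm_num) hXc

theorem AM_bound {k : ℕ} (p : Perm (Fin (k + 2))) : ∃ E : ℕ, ∀ s,
    (AM (((k + 2) ^ 2) ^ s) p).card ≤ 2 ^ (E * ((k + 2) ^ 2) ^ s + 1) := by
  set B := (k + 2) ^ 2 with hB
  set C := 2 * ((k + 2) * ((k + 2) ^ 2).choose (k + 2)) * ((k + 2) ^ 2) ^ 2 + 1 with hC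
  have hB2 : 2 ≤ B := by
    have := Nat.pow_le_pow_left (show 2 ≤ k + 2 by omega) 2
    omega
  refine ⟨C * B ^ 2, fun s => ?_⟩
  induction s with
  | zero =>
    have : (AM (B ^ 0) p) ⊆ (Finset.range 1 ×ˢ Finset.range 1).powerset := by
      intro A hA
      rw [mem_AM, pow_zero] at hA
      exact Finset.mem_powerset.mpr hA.1
    have h2 := Finset.card_le_card this
    rw [Finset.card_powerset, Finset.card_product, Finset.card_range, mul_one] at h2
    exact h2.trans (Nat.pow_le_pow_right (by norm_num) (by omega))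
  | succ s ih =>
    have h1 := klazar (m := B ^ s) (f := C * B ^ s) p (show 0 < B by omega) (fun A hA => by
      rw [mem_AM] at hA
      exact fh_bound p s A hA.2 hA.1)
    rw [← pow_succ'] at h1
    calc _ ≤ _ := h1
      _ ≤ 2 ^ (C * B ^ s * B ^ 2) * 2 ^ (C * B ^ 2 * B ^ s + 1) := by gcongr
      _ = 2 ^ (2 * (C * B ^ 2 * B ^ s) + 1) := by rw [← pow_add]; congr 1; ring
      _ ≤ 2 ^ (C * B ^ 2 * B ^ (s + 1) + 1) := by
          refine Nat.pow_le_pow_right (by norm_num) ?_
          have h5 : B ^ (s + 1) = B ^ s * B := pow_succ B s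
          have h6 : C * B ^ 2 * B ^ (s + 1) = (C * B ^ 2 * B ^ s) * B := by rw [h5]; ring
          have h7 := Nat.mul_le_mul_left (C * B ^ 2 * B ^ s) hB2
          omega

/-- The graph of a permutation as a zero-one matrix. -/
def gph {n : ℕ} (w : Perm (Fin n)) : Finset (ℕ × ℕ) :=
  Finset.univ.image fun i : Fin n => ((i : ℕ), (w i : ℕ))

theorem gph_inj {n : ℕ} : Function.Injective (gph (n := n)) := by
  intro w w' h
  ext i
  have h1 : ((i : ℕ), (w i : ℕ)) ∈ gph w' := by
    rw [← h]; exact Finset.mem_image.mpr ⟨i, Finset.mem_univ _, rfl⟩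
  rw [gph, Finset.mem_image] at h1
  obtain ⟨j, -, hj⟩ := h1
  rw [Prod.mk.injEq] at hj
  have : j = i := Fin.ext hj.1
  rw [this] at hj
  exact hj.2.symm

theorem contains_of_MC {n k : ℕ} {w : Perm (Fin n)} {p : Perm (Fin k)} (h : MC (gph w) p) :
    Contains w p := by
  obtain ⟨f, g, hf, hg, h⟩ := h
  have h2 : ∀ s, ∃ i : Fin n, (i : ℕ) = f s ∧ (w i : ℕ) = g (p s) := by
    intro s
    have := h s
    rw [gph, Finset.mem_image] at this
    obtain ⟨i, -, hi⟩ := this
    rw [Prod.mk.injEq] at hi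
    exact ⟨i, hi.1, hi.2⟩
  choose i h3 h4 using h2
  refine ⟨i, fun s t hst => ?_, fun s t => ?_⟩
  · rw [Fin.lt_def, h3, h3]; exact hf hst
  · rw [Fin.lt_def, h4, h4]; exact hg.lt_iff_lt

theorem avCount_le_AM {n N k : ℕ} (h : n ≤ N) (p : Perm (Fin k)) :
    avCount n p ≤ (AM N p).card := by
  classical
  unfold avCount
  refine Finset.card_le_card_of_injOn gph ?_ (gph_inj.injOn)
  intro w hw
  simp only [Finset.coe_filter, Finset.mem_univ, true_and, Set.mem_ofPred_eq] at hw
  rw [Finset.mem_coe, mem_AM]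
  refine ⟨fun z hz => ?_, fun hc => hw (contains_of_MC hc)⟩
  rw [gph, Finset.mem_image] at hz
  obtain ⟨i, -, rfl⟩ := hz
  rw [Finset.mem_product, Finset.mem_range, Finset.mem_range]
  exact ⟨i.2.trans_le h, (w i).2.trans_le h⟩

/-- **Stanley-Wilf** (Marcus-Tardos): the number of permutations of length `n` that avoid `p` is
at most `c ^ n`. -/
theorem stanley_wilf {k : ℕ} (p : Perm (Fin (k + 2))) : ∃ c : ℕ, 1 ≤ c ∧ ∀ n,
    avCount n p ≤ c ^ n := by
  obtain ⟨E, hE⟩ := AM_bound p
  set B := (k + 2) ^ 2 with hB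
  have hB2 : 2 ≤ B := by
    have := Nat.pow_le_pow_left (show 2 ≤ k + 2 by omega) 2
    omega
  refine ⟨2 ^ (E * B + 1), Nat.one_le_two_pow, fun n => ?_⟩
  rcases Nat.eq_zero_or_pos n with hn | hn
  · subst hn
    rw [pow_zero]
    unfold avCount
    refine (Finset.card_le_univ _).trans ?_
    simp
  · -- the power of `B` just above `n`
    have hex : ∃ s, n ≤ B ^ s := ⟨n, (Nat.lt_pow_self (by omega)).le⟩
    classical
    have hs := Nat.find_spec hex
    set s := Nat.find hex with hsdef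
    have hle : B ^ s ≤ B * n := by
      rcases Nat.eq_zero_or_pos s with h0 | h0
      · rw [h0, pow_zero]; nlinarith
      · have h1 := Nat.find_min hex (m := s - 1) (by omega)
        push Not at h1
        obtain ⟨t, ht⟩ : ∃ t, s = t + 1 := ⟨s - 1, by omega⟩
        rw [ht, Nat.add_sub_cancel] at h1
        rw [ht, pow_succ']
        exact Nat.mul_le_mul_left _ h1.le
    calc avCount n p ≤ (AM (B ^ s) p).card := avCount_le_AM hs p
      _ ≤ 2 ^ (E * B ^ s + 1) := hE s
      _ ≤ 2 ^ (E * (B * n) + n) := by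
          refine Nat.pow_le_pow_right (by norm_num) ?_
          have := Nat.mul_le_mul_left E hle
          omega
      _ = (2 ^ (E * B + 1)) ^ n := by rw [← pow_mul]; congr 1; ring

end Pool.Agent.helper48.PP
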