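import Pool.Agent.helper57.PP.Spec

/-!
# Project pp, row CM: the inserted vertices of a complete sweep
-/

set_option autoImplicit false

namespace Pool.Agent.helper57.PP

open Finset

theorem CM : CM_stmt := by
  intro W _ T R a z bs C σ
  induction σ generalizing R C with
  | nil =>
    intro h
    obtain ⟨h1, h2, -⟩ := sw_nil h
    refine ⟨by simp, fun v => ?_⟩
    rw [← h1, ← h2]
    simp [vs]
  | cons s σ ih =>
    intro h
    obtain ⟨A, B, hC, hSt, hx, hnd, hcof, hmid, hrest⟩ := sw_cons h
    obtain ⟨ih1, ih2⟩ := ih _ _ hrest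
    have hfan : ∀ t, t ∈ cof R {s.x} → ∀ v ∈ t, v = s.x ∨ v = s.y0 ∨ v ∈ s.mid ∨ v = s.yr := by
      intro t ht v hv
      rw [hcof] at ht
      unfold fan at ht
      obtain ⟨e, he, rfl⟩ := mem_image.1 ht
      rcases mem_insert.1 hv with h1 | h1
      · exact Or.inl h1
      · have h2 := mem_of_mem_pe he h1
        simp only [List.mem_cons, List.mem_append, List.not_mem_nil, or_false] at h2
        tauto
    have hmidR : ∀ v ∈ s.mid, v ∈ vs R := by
      intro v hv
      have h1 : v ∈ pth s.y0 s.mid s.yr := by
        unfold pth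
        simp [hv]
      obtain ⟨e, he, hve⟩ := exists_pe_of_mem h1
      have h2 : insert s.x e ∈ cof R {s.x} := by
        rw [hcof]
        unfold fan
        exact mem_image.2 ⟨e, he, rfl⟩
      exact mem_vs.2 ⟨_, (mem_cof.1 h2).1, mem_insert_of_mem hve⟩
    have hC1 : ∀ v, v ∈ C ↔ v ∈ A ∨ v = s.y0 ∨ v = s.x ∨ v = s.yr ∨ v ∈ B := by
      intro v
      rw [hC]
      simp only [List.mem_append, List.mem_cons]
    have hC2 : ∀ v, v ∈ A ++ s.y0 :: (s.mid ++ s.yr :: B) ↔
        v ∈ A ∨ v = s.y0 ∨ v ∈ s.mid ∨ v = s.yr ∨ v ∈ B := by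
      intro v
      simp only [List.mem_append, List.mem_cons]
    constructor
    · rw [List.flatMap_cons, List.nodup_append']
      refine ⟨?_, ih1, ?_⟩
      · have h1 := (List.nodup_cons.1 hnd).2
        exact (List.nodup_append'.1 h1).1
      · intro v hv hv'
        have h1 := ((ih2 v).1 hv').1
        exact h1 ((hC2 v).2 (Or.inr (Or.inr (Or.inl hv))))
    · intro v
      rw [List.flatMap_cons, List.mem_append, ih2 v]
      constructor
      · rintro (hv | ⟨hv1, hv2⟩)
        · exact ⟨hmid v hv, Or.inr (hmidR v hv)⟩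
        · have hvx : v ≠ s.x := by
            rintro rfl
            rcases hv2 with h1 | h1
            · exact hx h1
            · obtain ⟨t, ht, hvt⟩ := mem_vs.1 h1
              rw [mem_sdiff] at ht
              exact ht.2 (mem_cof.2 ⟨ht.1, singleton_subset_iff.2 hvt⟩)
          refine ⟨?_, ?_⟩
          · rw [hC1]
            rw [hC2] at hv1
            tauto
          · rcases hv2 with h1 | h1
            · exact Or.inl h1
            · exact Or.inr (vs_mono sdiff_subset h1)
      · rintro ⟨hv1, hv2⟩
        by_cases hm : v ∈ s.mid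
        · exact Or.inl hm
        · right
          rw [hC1] at hv1
          refine ⟨?_, ?_⟩
          · rw [hC2]
            tauto
          · rcases hv2 with h1 | h1
            · exact Or.inl h1
            · right
              obtain ⟨t, ht, hvt⟩ := mem_vs.1 h1
              refine mem_vs.2 ⟨t, mem_sdiff.2 ⟨ht, fun h2 => ?_⟩, hvt⟩
              have := hfan t h2 v hvt
              tauto

end Pool.Agent.helper57.PP
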