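import Mathlib

/-!
Permutation patterns: containment, avoidance, direct sums.
-/

namespace Pool.Agent.helper48.PP

open Equiv Finset

/-- The direct sum of two permutations in one line form: the one line form of `x`, followed by
the one line form of `y` with all its values increased by the length of `x`. -/
def dsum {a b : ℕ} (x : Perm (Fin a)) (y : Perm (Fin b)) : Perm (Fin (a + b)) :=
  (finSumFinEquiv.symm.trans (Equiv.sumCongr x y)).trans finSumFinEquiv

/-- The positions `f 0 < f 1 < ...` of `w` carry a copy of the pattern `p`: the values of `w` at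
these positions are in the same relative order as the values of `p`. -/
def IsCopy {k n : ℕ} (w : Fin n → Fin n) (p : Perm (Fin k)) (f : Fin k → Fin n) : Prop :=
  StrictMono f ∧ ∀ s t, w (f s) < w (f t) ↔ p s < p t

/-- The permutation `w` contains the pattern `p`. -/
def Contains {k n : ℕ} (w : Perm (Fin n)) (p : Perm (Fin k)) : Prop :=
  ∃ f : Fin k → Fin n, StrictMono f ∧ ∀ s t, w (f s) < w (f t) ↔ p s < p t

open Classical in
/-- The number of permutations of length `n` that avoid the pattern `p`. -/
noncomputable def avCount {k : ℕ} (n : ℕ) (p : Perm (Fin k)) : ℕ :=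
  (Finset.univ.filter (fun w : Perm (Fin n) => ¬ Contains w p)).card

theorem dsum_castAdd {a b : ℕ} (x : Perm (Fin a)) (y : Perm (Fin b)) (s : Fin a) :
    dsum x y (Fin.castAdd b s) = Fin.castAdd b (x s) := by
  simp [dsum]

theorem dsum_natAdd {a b : ℕ} (x : Perm (Fin a)) (y : Perm (Fin b)) (s : Fin b) :
    dsum x y (Fin.natAdd a s) = Fin.natAdd a (y s) := by
  simp [dsum]

theorem contains_iff {k n : ℕ} {w : Perm (Fin n)} {p : Perm (Fin k)} :
    Contains w p ↔ ∃ f, IsCopy w p f := Iff.rfl

theorem castAdd_lt {a b : ℕ} {s t : Fin a} : Fin.castAdd b s < Fin.castAdd b t ↔ s < t := by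
  rw [Fin.lt_def, Fin.lt_def]; simp

theorem natAdd_lt {a b : ℕ} {s t : Fin b} : Fin.natAdd a s < Fin.natAdd a t ↔ s < t := by
  rw [Fin.lt_def, Fin.lt_def]; simp

theorem isCopy_dsum {a b n : ℕ} {w : Fin n → Fin n} {x : Perm (Fin a)} {y : Perm (Fin b)}
    {h : Fin (a + b) → Fin n} (H : IsCopy w (dsum x y) h) :
    IsCopy w x (fun s => h (Fin.castAdd b s)) ∧ IsCopy w y (fun s => h (Fin.natAdd a s)) ∧
    ∀ s t, h (Fin.castAdd b s) < h (Fin.natAdd a t) ∧
      w (h (Fin.castAdd b s)) < w (h (Fin.natAdd a t)) := by
  obtain ⟨hm, hi⟩ := H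
  refine ⟨⟨fun s t hst => hm (castAdd_lt.mpr hst), fun s t => ?_⟩,
    ⟨fun s t hst => hm (natAdd_lt.mpr hst), fun s t => ?_⟩, fun s t => ⟨hm ?_, ?_⟩⟩
  · rw [hi, dsum_castAdd, dsum_castAdd, castAdd_lt]
  · rw [hi, dsum_natAdd, dsum_natAdd, natAdd_lt]
  · rw [Fin.lt_def]; simp; omega
  · rw [hi, dsum_castAdd, dsum_natAdd, Fin.lt_def]; simp; omega

theorem isCopy_append {a b n : ℕ} {w : Fin n → Fin n} {x : Perm (Fin a)} {y : Perm (Fin b)}
    {f : Fin a → Fin n} {g : Fin b → Fin n} (hf : IsCopy w x f) (hg : IsCopy w y g)
    (hfg : ∀ s t, f s < g t ∧ w (f s) < w (g t)) :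
    IsCopy w (dsum x y) (Fin.append f g) := by
  refine ⟨fun s t hst => ?_, fun s t => ?_⟩
  · induction s using Fin.addCases with
    | left s =>
      induction t using Fin.addCases with
      | left t => rw [Fin.append_left, Fin.append_left]; exact hf.1 (castAdd_lt.mp hst)
      | right t => rw [Fin.append_left, Fin.append_right]; exact (hfg s t).1
    | right s =>
      induction t using Fin.addCases with
      | left t =>
        exfalso; rw [Fin.lt_def] at hst; simp at hst; omega
      | right t => rw [Fin.append_right, Fin.append_right]; exact hg.1 (natAdd_lt.mp hst)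
  · induction s using Fin.addCases with
    | left s =>
      induction t using Fin.addCases with
      | left t =>
        rw [Fin.append_left, Fin.append_left, dsum_castAdd, dsum_castAdd, hf.2, castAdd_lt]
      | right t =>
        rw [Fin.append_left, Fin.append_right, dsum_castAdd, dsum_natAdd]
        refine iff_of_true (hfg s t).2 ?_
        rw [Fin.lt_def]; simp; omega
    | right s =>
      induction t using Fin.addCases with
      | left t =>
        rw [Fin.append_left, Fin.append_right, dsum_castAdd, dsum_natAdd]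
        refine iff_of_false (not_lt.mpr (hfg t s).2.le) ?_
        rw [Fin.lt_def]; simp; omega
      | right t =>
        rw [Fin.append_right, Fin.append_right, dsum_natAdd, dsum_natAdd, hg.2, natAdd_lt]

end Pool.Agent.helper48.PP
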