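import Mathlib

/-!
The analytic part: supermultiplicative sequences and the merge growth rate.
-/

namespace Pool.Agent.helper48.PP

open Finset Filter Topology

/-- The square root of the growth rate. -/
noncomputable def rg (s : ℕ → ℝ) : ℝ := sSup {t : ℝ | 0 ≤ t ∧ ∃ m, 1 ≤ m ∧ t ^ (2 * m) ≤ s m}

variable {s : ℕ → ℝ}

theorem rg_bdd {c : ℝ} (hc : 1 ≤ c) (h3 : ∀ n, s n ≤ c ^ n) :
    BddAbove {t : ℝ | 0 ≤ t ∧ ∃ m, 1 ≤ m ∧ t ^ (2 * m) ≤ s m} := by
  refine ⟨c, ?_⟩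
  rintro t ⟨ht, m, hm, h⟩
  by_contra hn
  push Not at hn
  have h1 : t ^ (2 * m) ≤ c ^ m := h.trans (h3 m)
  have h2 : c ^ m ≤ c ^ (2 * m) := pow_le_pow_right₀ hc (by omega)
  have h4 : c ^ (2 * m) < t ^ (2 * m) := pow_lt_pow_left₀ hn (by linarith) (by omega)
  linarith

theorem one_le_rg {c : ℝ} (hc : 1 ≤ c) (h1 : ∀ n, 1 ≤ s n) (h3 : ∀ n, s n ≤ c ^ n) :
    1 ≤ rg s := by
  refine le_csSup (rg_bdd hc h3) ⟨zero_le_one, 1, le_rfl, ?_⟩
  rw [one_pow]; exact h1 1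

theorem le_rg_pow {c : ℝ} (hc : 1 ≤ c) (h1 : ∀ n, 1 ≤ s n) (h2 : ∀ m n, s m * s n ≤ s (m + n))
    (h3 : ∀ n, s n ≤ c ^ n) (n : ℕ) : s n ≤ rg s ^ (2 * n) := by
  rcases Nat.eq_zero_or_pos n with hn | hn
  · subst hn
    have h4 := h2 0 0
    have h5 := h1 0
    rw [mul_zero, pow_zero]
    rw [add_zero] at h4
    nlinarith
  · have h5 : (0:ℝ) ≤ s n := zero_le_one.trans (h1 n)
    set t : ℝ := (s n) ^ (1 / ((2 * n : ℕ) : ℝ)) with ht
    have ht0 : 0 ≤ t := Real.rpow_nonneg h5 _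
    have ht1 : t ^ (2 * n) = s n := by
      rw [ht, ← Real.rpow_natCast, ← Real.rpow_mul h5, one_div, inv_mul_cancel₀, Real.rpow_one]
      have : (2 * n : ℕ) ≠ 0 := by omega
      exact_mod_cast this
    have ht2 : t ≤ rg s := le_csSup (rg_bdd hc h3) ⟨ht0, n, hn, ht1.le⟩
    rw [← ht1]
    exact pow_le_pow_left₀ ht0 ht2 _

theorem lower_pow (h1 : ∀ n, 1 ≤ s n) (h2 : ∀ m n, s m * s n ≤ s (m + n)) {m : ℕ} (k : ℕ) :
    s m ^ k ≤ s (k * m) := by
  induction k with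
  | zero => rw [pow_zero, zero_mul]; exact h1 0
  | succ k ih =>
    rw [pow_succ, Nat.succ_mul]
    refine le_trans ?_ (h2 _ _)
    exact mul_le_mul_of_nonneg_right ih (zero_le_one.trans (h1 m))

/-- For `t` below the growth, `κ t ^ (2 n) ≤ s n`. -/
theorem exists_kappa (h1 : ∀ n, 1 ≤ s n)
    (h2 : ∀ m n, s m * s n ≤ s (m + n)) {t : ℝ} (ht0 : 0 ≤ t)
    (ht : t < rg s) : ∃ κ : ℝ, 0 < κ ∧ κ ≤ 1 ∧ ∀ n, κ * t ^ (2 * n) ≤ s n := by
  have hne : {t : ℝ | 0 ≤ t ∧ ∃ m, 1 ≤ m ∧ t ^ (2 * m) ≤ s m}.Nonempty :=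
    ⟨1, zero_le_one, 1, le_rfl, by rw [one_pow]; exact h1 1⟩
  obtain ⟨t', ⟨ht'0, m, hm, hmt⟩, htt'⟩ := exists_lt_of_lt_csSup hne ht
  set E : ℝ := max 1 t ^ (2 * m) with hE
  have hE1 : 1 ≤ E := one_le_pow₀ (le_max_left _ _)
  refine ⟨1 / E, by positivity, by rw [div_le_one (by positivity)]; exact hE1, fun n => ?_⟩
  rw [one_div, inv_mul_le_iff₀ (by positivity)]
  have hdm := Nat.div_add_mod n m
  have hlt := Nat.mod_lt n hm
  have e1 : t ^ (2 * n) = (t ^ (2 * m)) ^ (n / m) * t ^ (2 * (n % m)) := by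
    rw [← pow_mul, ← pow_add]
    congr 1
    calc 2 * n = 2 * (m * (n / m) + n % m) := by rw [hdm]
      _ = _ := by ring
  have e2 : t ^ (2 * (n % m)) ≤ E := by
    calc t ^ (2 * (n % m)) ≤ max 1 t ^ (2 * (n % m)) :=
          pow_le_pow_left₀ ht0 (le_max_right _ _) _
      _ ≤ E := pow_le_pow_right₀ (le_max_left _ _) (by omega)
  have e3 : (t ^ (2 * m)) ^ (n / m) ≤ s m ^ (n / m) := by
    refine pow_le_pow_left₀ (by positivity) ?_ _
    exact (pow_le_pow_left₀ ht0 htt'.le _).trans hmt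
  have e4 : s m ^ (n / m) ≤ s (n / m * m) := lower_pow h1 h2 _
  have e5 : s (n / m * m) ≤ s n := by
    have h5 := h2 (n / m * m) (n % m)
    have h6 : n / m * m + n % m = n := by rw [mul_comm]; exact hdm
    rw [h6] at h5
    have h7 := h1 (n % m)
    have h8 := h1 (n / m * m)
    nlinarith
  rw [e1, mul_comm]
  exact mul_le_mul e2 (e3.trans (e4.trans e5)) (by positivity) (by positivity)

/-- The main estimate: some stage beats `(1 + a) ^ 2` per element. -/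
theorem exists_stage {c : ℝ} (hc : 1 ≤ c) (h1 : ∀ n, 1 ≤ s n)
    (h2 : ∀ m n, s m * s n ≤ s (m + n)) (h3 : ∀ n, s n ≤ c ^ n) :
    ∃ M q j : ℕ, (1 + rg s) ^ (2 * (M + (q + j))) <
      s M * ((M + q).choose q * ((M + q).choose q * q.choose j)) := by
  by_contra hcon
  push Not at hcon
  have ha1 := one_le_rg hc h1 h3
  set a := rg s with ha
  set H : ℝ := (1 + a) ^ 2 with hH
  have hH0 : 0 < H := by positivity
  have step1 : ∀ n M, M ≤ n → s M * (n.choose M : ℝ) ^ 2 * (1 + 1 / H) ^ (n - M) ≤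
      (n + 1) * H ^ n := by
    intro n M hM
    obtain ⟨q, rfl⟩ : ∃ q, n = M + q := ⟨n - M, by omega⟩
    rw [Nat.add_sub_cancel_left, add_comm (1:ℝ) (1 / H), add_pow, Finset.mul_sum]
    have : ∀ j ∈ Finset.range (q + 1), s M * ((M + q).choose M : ℝ) ^ 2 *
        ((1 / H) ^ j * 1 ^ (q - j) * (q.choose j : ℝ)) ≤ H ^ (M + q) := by
      intro j _
      have h5 := hcon M q j
      have h6 : ((M + q).choose q : ℝ) = (M + q).choose M := by
        rw [← Nat.choose_symm_add]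
      rw [h6, pow_mul] at h5
      change _ ≤ H ^ (M + (q + j)) at h5
      rw [one_pow, mul_one, one_div, inv_pow]
      have h7 : H ^ (M + (q + j)) = H ^ (M + q) * H ^ j := by rw [← pow_add]; congr 1; ring
      rw [h7] at h5
      calc s M * ((M + q).choose M : ℝ) ^ 2 * ((H ^ j)⁻¹ * (q.choose j : ℝ)) =
          (s M * ((M + q).choose M * ((M + q).choose M * q.choose j))) / H ^ j := by
            field_simp
        _ ≤ H ^ (M + q) := by
            rw [div_le_iff₀ (by positivity)]; exact h5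
    calc _ ≤ ∑ j ∈ Finset.range (q + 1), H ^ (M + q) := Finset.sum_le_sum this
      _ = (q + 1) * H ^ (M + q) := by
          rw [Finset.sum_const, Finset.card_range, nsmul_eq_mul]; push_cast; ring
      _ ≤ _ := by
          gcongr
          linarith [(Nat.cast_nonneg M : (0:ℝ) ≤ M)]
  set r : ℝ := Real.sqrt (1 + 1 / H) with hr
  have hcc : 1 < 1 + 1 / H := by
    have : 0 < 1 / H := by positivity
    linarith
  have hr1 : 1 < r := by
    rw [hr]
    exact Real.lt_sqrt_of_sq_lt (by rw [one_pow]; exact hcc)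
  have hr2 : r ^ 2 = 1 + 1 / H := Real.sq_sqrt (by linarith)
  set t : ℝ := max 0 (a - (r - 1) / 2) with ht
  have ht0 : 0 ≤ t := le_max_left _ _
  have hta : t < a := max_lt (by linarith) (by linarith)
  have htr : 1 + a < t + r := by
    have := le_max_right 0 (a - (r - 1) / 2)
    rw [← ht] at this
    linarith
  obtain ⟨κ, hκ0, hκ1, hκ⟩ := exists_kappa h1 h2 ht0 hta
  have step2 : ∀ n : ℕ, (t + r) ^ n ≤ ((n + 1) ^ 2 / κ) * (1 + a) ^ n := by
    intro n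
    rw [add_pow]
    have : ∀ M ∈ Finset.range (n + 1), t ^ M * r ^ (n - M) * (n.choose M : ℝ) ≤
        ((n + 1) / κ) * (1 + a) ^ n := by
      intro M hM
      rw [Finset.mem_range] at hM
      have h5 := step1 n M (by omega)
      have h6 := hκ M
      refine le_of_sq_le_sq ?_ (by positivity)
      calc (t ^ M * r ^ (n - M) * (n.choose M : ℝ)) ^ 2 =
          t ^ (2 * M) * (n.choose M : ℝ) ^ 2 * (1 + 1 / H) ^ (n - M) := by
            rw [← hr2]; ring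
        _ ≤ (s M / κ) * (n.choose M : ℝ) ^ 2 * (1 + 1 / H) ^ (n - M) := by
            gcongr
            rw [le_div_iff₀ hκ0, mul_comm]; exact h6
        _ = (s M * (n.choose M : ℝ) ^ 2 * (1 + 1 / H) ^ (n - M)) / κ := by ring
        _ ≤ ((n + 1) * H ^ n) / κ := by gcongr
        _ = ((n + 1) / κ) * H ^ n := by ring
        _ ≤ ((n + 1) / κ) ^ 2 * H ^ n := by
            gcongr
            have h8 : 1 ≤ ((n:ℝ) + 1) / κ := by
              rw [le_div_iff₀ hκ0, one_mul]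
              linarith [(Nat.cast_nonneg n : (0:ℝ) ≤ n)]
            nlinarith
        _ = (((n + 1) / κ) * (1 + a) ^ n) ^ 2 := by
            rw [hH, mul_pow, ← pow_mul, ← pow_mul, mul_comm 2 n]
    calc _ ≤ ∑ M ∈ Finset.range (n + 1), ((n + 1) / κ) * (1 + a) ^ n := Finset.sum_le_sum this
      _ = _ := by
          rw [Finset.sum_const, Finset.card_range, nsmul_eq_mul]; push_cast; ring
  have hρ : 1 < (t + r) / (1 + a) := by
    rw [lt_div_iff₀ (by linarith), one_mul]; exact htr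
  have hlim := tendsto_pow_const_div_const_pow_of_one_lt 2 hρ
  have hev := (hlim.eventually (gt_mem_nhds (show (0:ℝ) < κ / 4 by positivity))).and
    (eventually_ge_atTop 1)
  obtain ⟨n, hn1, hn2⟩ := hev.exists
  have h9 := step2 n
  have hn3 : (1:ℝ) ≤ n := by exact_mod_cast hn2
  rw [div_pow, div_div_eq_mul_div, div_lt_iff₀ (by positivity)] at hn1
  have h10 : (t + r) ^ n * κ ≤ (n + 1) ^ 2 * (1 + a) ^ n := by
    have := mul_le_mul_of_nonneg_right h9 hκ0.le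
    calc _ ≤ _ := this
      _ = _ := by field_simp
  have h11 : ((n:ℝ) + 1) ^ 2 ≤ 4 * (n:ℝ) ^ 2 := by nlinarith
  have h12 : (0:ℝ) < (1 + a) ^ n := by positivity
  nlinarith

theorem sum_sq_le {ι : Type*} (S : Finset ι) (f : ι → ℝ) (hf : ∀ i ∈ S, 0 ≤ f i) :
    ∑ i ∈ S, f i ^ 2 ≤ (∑ i ∈ S, f i) ^ 2 := by
  rw [pow_two, Finset.sum_mul]
  refine Finset.sum_le_sum fun i hi => ?_
  rw [pow_two]
  exact mul_le_mul_of_nonneg_left (Finset.single_le_sum hf hi) (hf i hi)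

/-- The upper bound for merges. -/
theorem merge_le {c : ℝ} (hc : 1 ≤ c) (h1 : ∀ n, 1 ≤ s n) (h2 : ∀ m n, s m * s n ≤ s (m + n))
    (h3 : ∀ n, s n ≤ c ^ n) (n : ℕ) :
    ∑ m ∈ Finset.range (n + 1), (n.choose m : ℝ) * n.choose m * s m ≤ (1 + rg s) ^ (2 * n) := by
  have ha1 := one_le_rg hc h1 h3
  have e1 : (1 + rg s) ^ (2 * n) = (∑ m ∈ Finset.range (n + 1), rg s ^ m * (n.choose m : ℝ)) ^ 2 := by
    rw [mul_comm 2 n, pow_mul, add_comm 1 (rg s), add_pow]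
    congr 1
    refine Finset.sum_congr rfl fun m _ => ?_
    rw [one_pow, mul_one]
  rw [e1]
  refine le_trans ?_ (sum_sq_le _ _ fun m _ => by positivity)
  refine Finset.sum_le_sum fun m _ => ?_
  have := le_rg_pow hc h1 h2 h3 m
  calc (n.choose m : ℝ) * n.choose m * s m ≤ (n.choose m : ℝ) * n.choose m * rg s ^ (2 * m) := by
        gcongr
    _ = _ := by ring

/-- Final comparison. -/
theorem eventually_gap {Y X : ℝ} (hY : 1 ≤ Y) (M R : ℕ) (hR : 0 < R)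
    (hX : Y ^ (2 * R) < X) {u v : ℕ → ℝ} (hu0 : ∀ n, 0 ≤ u n) (hu : ∀ n, u n ≤ Y ^ (2 * n))
    (hv : Monotone v) (hvK : ∀ K : ℕ, X ^ K ≤ v (M + K * R)) :
    ∃ ρ : ℝ, 1 < ρ ∧ ∃ N, ∀ n, N ≤ n → ρ ^ n * u n ≤ v n ∧ u n < v n := by
  have hY0 : 0 < Y := by linarith
  have hYR : 0 < Y ^ (2 * R) := by positivity
  set θ := X / Y ^ (2 * R) with hθ
  have hθ1 : 1 < θ := by rw [hθ, lt_div_iff₀ hYR, one_mul]; exact hX
  -- `ρ ^ (2 R) = θ`
  set ρ : ℝ := θ ^ (1 / ((2 * R : ℕ) : ℝ)) with hρ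
  have hRne : ((2 * R : ℕ) : ℝ) ≠ 0 := by
    have : 2 * R ≠ 0 := by omega
    exact_mod_cast this
  have hρ1 : 1 < ρ := by
    rw [hρ]
    refine Real.one_lt_rpow hθ1 ?_
    have : (0:ℝ) < ((2 * R : ℕ) : ℝ) := by
      have : 0 < 2 * R := by omega
      exact_mod_cast this
    positivity
  have hρR : ρ ^ (2 * R) = θ := by
    rw [hρ, ← Real.rpow_natCast, ← Real.rpow_mul (by linarith), one_div, inv_mul_cancel₀ hRne,
      Real.rpow_one]
  have hρR1 : 1 < ρ ^ R := one_lt_pow₀ hρ1 (by omega)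
  -- choose `K₀`
  obtain ⟨K₀, hK₀⟩ := pow_unbounded_of_one_lt ((ρ * Y ^ 2) ^ (M + R)) hρR1
  refine ⟨ρ, hρ1, M + (K₀ + 1) * R, fun n hn => ?_⟩
  set K := (n - M) / R with hK
  have hdm := Nat.div_add_mod (n - M) R
  have hlt := Nat.mod_lt (n - M) hR
  have hnM : M ≤ n := by
    have : M ≤ M + (K₀ + 1) * R := Nat.le_add_right _ _
    omega
  have hKn : M + K * R ≤ n := by
    have : K * R = R * ((n - M) / R) := by rw [hK, mul_comm]
    omega
  have hnK : n ≤ M + K * R + R := by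
    have : K * R = R * ((n - M) / R) := by rw [hK, mul_comm]
    omega
  have hKK : K₀ + 1 ≤ K := by
    rw [hK, Nat.le_div_iff_mul_le hR]
    omega
  have hX0 : X = θ * Y ^ (2 * R) := by rw [hθ]; field_simp
  have h5 : v n ≥ X ^ K := (hvK K).trans (hv hKn)
  have h6 : u n ≤ Y ^ (2 * n) := hu n
  have h7 : ρ ^ n * Y ^ (2 * n) = (ρ * Y ^ 2) ^ n := by rw [mul_pow, ← pow_mul]
  have hbase : 1 ≤ ρ * Y ^ 2 := by
    have := one_le_pow₀ (n := 2) hY
    nlinarith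
  have h8 : (ρ * Y ^ 2) ^ n ≤ (ρ * Y ^ 2) ^ (M + R) * ((ρ * Y ^ 2) ^ R) ^ K := by
    rw [← pow_mul, ← pow_add]
    refine pow_le_pow_right₀ hbase ?_
    calc n ≤ M + K * R + R := hnK
      _ = M + R + R * K := by ring
  have h9 : (ρ * Y ^ 2) ^ (M + R) * ((ρ * Y ^ 2) ^ R) ^ K ≤
      (ρ ^ R) ^ K * ((ρ * Y ^ 2) ^ R) ^ K := by
    refine mul_le_mul_of_nonneg_right ?_ (by positivity)
    exact hK₀.le.trans (pow_le_pow_right₀ hρR1.le (by omega))
  have h10 : (ρ ^ R) ^ K * ((ρ * Y ^ 2) ^ R) ^ K = X ^ K := by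
    rw [← mul_pow]
    congr 1
    rw [hX0, ← hρR]
    ring
  have hmain : ρ ^ n * u n ≤ v n := by
    calc ρ ^ n * u n ≤ ρ ^ n * Y ^ (2 * n) := by gcongr
      _ = _ := h7
      _ ≤ _ := h8
      _ ≤ _ := h9
      _ = _ := h10
      _ ≤ _ := h5
  refine ⟨hmain, ?_⟩
  have hn0 : n ≠ 0 := by
    have : 1 ≤ (K₀ + 1) * R := Nat.mul_pos (by omega) hR
    omega
  have hρn : 1 < ρ ^ n := one_lt_pow₀ hρ1 hn0
  rcases (hu0 n).lt_or_eq with h | h
  · nlinarith
  · rw [← h]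
    have : 0 < X := by linarith
    have : 0 < X ^ K := by positivity
    linarith

end Pool.Agent.helper48.PP
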