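import Pool.Agent.helper48.PP.Defs

/-!
Swapping an increasing pair of components: for all patterns `x` and `y`, the pattern
`x ⊕ 12 ⊕ y` is avoided by at most as many permutations of length `n` as `x ⊕ 21 ⊕ y`.
-/

namespace Pool.Agent.helper48.PP

open Equiv Finset

variable {a b n : ℕ}

/-- There is a copy of `x` strictly below and to the left of the point `(i, v)`. -/
def XB (x : Perm (Fin a)) (w : Fin n → Fin n) (i v : Fin n) : Prop :=
  ∃ f, IsCopy w x f ∧ ∀ s, f s < i ∧ w (f s) < v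

/-- There is a copy of `y` strictly above and to the right of the point `(i, v)`. -/
def YB (y : Perm (Fin b)) (w : Fin n → Fin n) (i v : Fin n) : Prop :=
  ∃ g, IsCopy w y g ∧ ∀ s, i < g s ∧ v < w (g s)

/-- Positions with a copy of `x` below and to the left, and a copy of `y` above and to the
right. -/
def RR (x : Perm (Fin a)) (y : Perm (Fin b)) (w : Fin n → Fin n) (e : Fin n) : Prop :=
  XB x w e (w e) ∧ YB y w e (w e)

theorem IsCopy.congr {x : Perm (Fin a)} {w w' : Fin n → Fin n} {f : Fin a → Fin n}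
    (h : IsCopy w x f) (hw : ∀ s, w' (f s) = w (f s)) : IsCopy w' x f :=
  ⟨h.1, fun s t => by rw [hw, hw, h.2]⟩

theorem contains12 {x : Perm (Fin a)} {y : Perm (Fin b)} {w : Perm (Fin n)} :
    Contains w (dsum (dsum x (1 : Perm (Fin 2))) y) ↔
      ∃ i j, i < j ∧ w i < w j ∧ XB x w i (w i) ∧ YB y w j (w j) := by
  constructor
  · rintro ⟨f, H⟩
    obtain ⟨H1, H2, H3⟩ := isCopy_dsum H
    obtain ⟨H4, H5, H6⟩ := isCopy_dsum H1
    refine ⟨_, _, H5.1 (show (0 : Fin 2) < 1 by decide),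
      (H5.2 0 1).mpr (by decide), ⟨_, H4, fun s => H6 s 0⟩, ⟨_, H2, fun s => ?_⟩⟩
    exact H3 (Fin.natAdd a 1) s
  · rintro ⟨i, j, hij, hw, ⟨f, hf, hf'⟩, ⟨g, hg, hg'⟩⟩
    have hm : IsCopy w (1 : Perm (Fin 2)) ![i, j] := by
      refine ⟨fun s t hst => ?_, fun s t => ?_⟩
      · fin_cases s <;> fin_cases t <;> simp_all
      · fin_cases s <;> fin_cases t <;> simp_all [le_of_lt]
    refine ⟨_, isCopy_append (isCopy_append hf hm fun s t => ?_) hg fun s t => ?_⟩
    · fin_cases t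
      · exact hf' s
      · exact ⟨(hf' s).1.trans hij, (hf' s).2.trans hw⟩
    · induction s using Fin.addCases with
      | left s =>
        rw [Fin.append_left]
        exact ⟨((hf' s).1.trans hij).trans (hg' t).1, ((hf' s).2.trans hw).trans (hg' t).2⟩
      | right s =>
        rw [Fin.append_right]
        fin_cases s
        · exact ⟨hij.trans (hg' t).1, hw.trans (hg' t).2⟩
        · exact hg' t

theorem contains21 {x : Perm (Fin a)} {y : Perm (Fin b)} {w : Perm (Fin n)} :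
    Contains w (dsum (dsum x (Equiv.swap 0 1 : Perm (Fin 2))) y) ↔
      ∃ i j, i < j ∧ w j < w i ∧ XB x w i (w j) ∧ YB y w j (w i) := by
  constructor
  · rintro ⟨f, H⟩
    obtain ⟨H1, H2, H3⟩ := isCopy_dsum H
    obtain ⟨H4, H5, H6⟩ := isCopy_dsum H1
    refine ⟨_, _, H5.1 (show (0 : Fin 2) < 1 by decide),
      (H5.2 1 0).mpr (by decide), ⟨_, H4, fun s => ⟨(H6 s 0).1, (H6 s 1).2⟩⟩,
      ⟨_, H2, fun s => ⟨(H3 (Fin.natAdd a 1) s).1, (H3 (Fin.natAdd a 0) s).2⟩⟩⟩
  · rintro ⟨i, j, hij, hw, ⟨f, hf, hf'⟩, ⟨g, hg, hg'⟩⟩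
    have hm : IsCopy w (Equiv.swap 0 1 : Perm (Fin 2)) ![i, j] := by
      refine ⟨fun s t hst => ?_, fun s t => ?_⟩
      · fin_cases s <;> fin_cases t <;> simp_all
      · fin_cases s <;> fin_cases t <;> simp_all [le_of_lt]
    refine ⟨_, isCopy_append (isCopy_append hf hm fun s t => ?_) hg fun s t => ?_⟩
    · fin_cases t
      · exact ⟨(hf' s).1, (hf' s).2.trans hw⟩
      · exact ⟨(hf' s).1.trans hij, (hf' s).2⟩
    · induction s using Fin.addCases with
      | left s =>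
        rw [Fin.append_left]
        exact ⟨((hf' s).1.trans hij).trans (hg' t).1, ((hf' s).2.trans hw).trans (hg' t).2⟩
      | right s =>
        rw [Fin.append_right]
        fin_cases s
        · exact ⟨hij.trans (hg' t).1, (hg' t).2⟩
        · exact ⟨(hg' t).1, hw.trans (hg' t).2⟩

/-- If two words agree away from `i < j`, and some copy of `x` lies below and to the left of
all the points involved, then copies of `x` are transferred. -/
theorem XB_transfer {x : Perm (Fin a)} {w w' : Fin n → Fin n} {i j v₀ : Fin n} (hij : i < j)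
    (hag : ∀ e, e ≠ i → e ≠ j → w' e = w e) (hi : v₀ ≤ w i) (hj : v₀ ≤ w j)
    (h0 : XB x w' i v₀) {e v : Fin n} (h : XB x w e v) : XB x w' e v := by
  obtain ⟨f, hf, hf'⟩ := h
  by_cases hc : ∃ s, f s = i ∨ f s = j
  · obtain ⟨s, hs⟩ := hc
    obtain ⟨f0, hf0, hf0'⟩ := h0
    refine ⟨f0, hf0, fun t => ?_⟩
    rcases hs with hs | hs
    · have h1 := hf' s
      rw [hs] at h1
      exact ⟨(hf0' t).1.trans h1.1, ((hf0' t).2.trans_le hi).trans h1.2⟩
    · have h1 := hf' s
      rw [hs] at h1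
      exact ⟨((hf0' t).1.trans hij).trans h1.1, ((hf0' t).2.trans_le hj).trans h1.2⟩
  · push Not at hc
    refine ⟨f, hf.congr fun s => hag _ (hc s).1 (hc s).2, fun s => ?_⟩
    rw [hag _ (hc s).1 (hc s).2]
    exact hf' s

theorem YB_transfer {y : Perm (Fin b)} {w w' : Fin n → Fin n} {i j v₀ : Fin n} (hij : i < j)
    (hag : ∀ e, e ≠ i → e ≠ j → w' e = w e) (hi : w i ≤ v₀) (hj : w j ≤ v₀)
    (h0 : YB y w' j v₀) {e v : Fin n} (h : YB y w e v) : YB y w' e v := by
  obtain ⟨f, hf, hf'⟩ := h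
  by_cases hc : ∃ s, f s = i ∨ f s = j
  · obtain ⟨s, hs⟩ := hc
    obtain ⟨f0, hf0, hf0'⟩ := h0
    refine ⟨f0, hf0, fun t => ?_⟩
    rcases hs with hs | hs
    · have h1 := hf' s
      rw [hs] at h1
      exact ⟨(h1.1.trans hij).trans (hf0' t).1, h1.2.trans (hi.trans_lt (hf0' t).2)⟩
    · have h1 := hf' s
      rw [hs] at h1
      exact ⟨h1.1.trans (hf0' t).1, h1.2.trans (hj.trans_lt (hf0' t).2)⟩
  · push Not at hc
    refine ⟨f, hf.congr fun s => hag _ (hc s).1 (hc s).2, fun s => ?_⟩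
    rw [hag _ (hc s).1 (hc s).2]
    exact hf' s

theorem XB.mono {x : Perm (Fin a)} {w : Fin n → Fin n} {i i' v v' : Fin n}
    (h : XB x w i v) (hi : i ≤ i') (hv : v ≤ v') : XB x w i' v' := by
  obtain ⟨f, hf, hf'⟩ := h
  exact ⟨f, hf, fun s => ⟨(hf' s).1.trans_le hi, (hf' s).2.trans_le hv⟩⟩

theorem YB.mono {y : Perm (Fin b)} {w : Fin n → Fin n} {i i' v v' : Fin n}
    (h : YB y w i v) (hi : i' ≤ i) (hv : v' ≤ v) : YB y w i' v' := by
  obtain ⟨f, hf, hf'⟩ := h
  exact ⟨f, hf, fun s => ⟨hi.trans_lt (hf' s).1, hv.trans_lt (hf' s).2⟩⟩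

/-- Removing a boxed inversion does not change the set `RR`. -/
theorem RR_swap {x : Perm (Fin a)} {y : Perm (Fin b)} {w : Perm (Fin n)} {i j : Fin n}
    (hij : i < j) (hw : w j < w i) (hx : XB x w i (w j)) (hy : YB y w j (w i)) (e : Fin n) :
    RR x y ((Equiv.swap i j).trans w : Perm (Fin n)) e ↔ RR x y w e := by
  set w' : Perm (Fin n) := (Equiv.swap i j).trans w with hw'
  have hwi : w' i = w j := by simp [hw']
  have hwj : w' j = w i := by simp [hw']
  have hag : ∀ e, e ≠ i → e ≠ j → w' e = w e := by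
    intro e h1 h2; simp [hw', Equiv.swap_apply_of_ne_of_ne h1 h2]
  have hag' : ∀ e, e ≠ i → e ≠ j → w e = w' e := fun e h1 h2 => (hag e h1 h2).symm
  -- the copies survive
  have hx' : XB x w' i (w j) := by
    obtain ⟨f, hf, hf'⟩ := hx
    have hne : ∀ s, f s ≠ i ∧ f s ≠ j := fun s =>
      ⟨(hf' s).1.ne, ((hf' s).1.trans hij).ne⟩
    refine ⟨f, hf.congr fun s => hag _ (hne s).1 (hne s).2, fun s => ?_⟩
    rw [hag _ (hne s).1 (hne s).2]; exact hf' s
  have hy' : YB y w' j (w i) := by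
    obtain ⟨f, hf, hf'⟩ := hy
    have hne : ∀ s, f s ≠ i ∧ f s ≠ j := fun s =>
      ⟨(hij.trans (hf' s).1).ne', (hf' s).1.ne'⟩
    refine ⟨f, hf.congr fun s => hag _ (hne s).1 (hne s).2, fun s => ?_⟩
    rw [hag _ (hne s).1 (hne s).2]; exact hf' s
  have hX : ∀ e v, XB x w' e v ↔ XB x w e v := by
    intro e v
    constructor
    · exact XB_transfer hij hag' hwi.ge (by rw [hwj]; exact hw.le) hx
    · exact XB_transfer hij hag hw.le le_rfl hx'
  have hY : ∀ e v, YB y w' e v ↔ YB y w e v := by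
    intro e v
    constructor
    · exact YB_transfer hij hag' (by rw [hwi]; exact hw.le) hwj.le hy
    · exact YB_transfer hij hag le_rfl hw.le hy'
  unfold RR
  rw [hX, hY]
  by_cases hei : e = i
  · subst hei
    rw [hwi]
    exact iff_of_true ⟨hx, hy.mono hij.le hw.le⟩ ⟨hx.mono le_rfl hw.le, hy.mono hij.le le_rfl⟩
  by_cases hej : e = j
  · subst hej
    rw [hwj]
    exact iff_of_true ⟨hx.mono hij.le hw.le, hy⟩ ⟨hx.mono hij.le le_rfl, hy.mono le_rfl hw.le⟩
  rw [hag e hei hej]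

/-- The weight that increases when an inversion is removed. -/
def wt (w : Perm (Fin n)) : ℤ := ∑ e : Fin n, ((e : ℕ) : ℤ) * (((w e : Fin n) : ℕ) : ℤ)

theorem wt_swap {w : Perm (Fin n)} {i j : Fin n} (hij : i < j) (hw : w j < w i) :
    wt w < wt ((Equiv.swap i j).trans w) := by
  set w' : Perm (Fin n) := (Equiv.swap i j).trans w with hw'
  have hwi : w' i = w j := by simp [hw']
  have hwj : w' j = w i := by simp [hw']
  have hag : ∀ e, e ≠ i → e ≠ j → w' e = w e := by
    intro e h1 h2; simp [hw', Equiv.swap_apply_of_ne_of_ne h1 h2]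
  unfold wt
  have hsplit : ∀ u : Perm (Fin n), ∑ e : Fin n, ((e : ℕ) : ℤ) * (((u e : Fin n) : ℕ) : ℤ) =
      ((i : ℕ) : ℤ) * (((u i : Fin n) : ℕ) : ℤ) + (((j : ℕ) : ℤ) * (((u j : Fin n) : ℕ) : ℤ) +
        ∑ e ∈ (Finset.univ.erase i).erase j, ((e : ℕ) : ℤ) * (((u e : Fin n) : ℕ) : ℤ)) := by
    intro u
    rw [← Finset.add_sum_erase _ _ (Finset.mem_univ i),
      ← Finset.add_sum_erase (Finset.univ.erase i) _
        (Finset.mem_erase.mpr ⟨hij.ne', Finset.mem_univ j⟩)]
  rw [hsplit w, hsplit w', hwi, hwj]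
  have hrest : ∑ e ∈ (Finset.univ.erase i).erase j, ((e : ℕ) : ℤ) * (((w' e : Fin n) : ℕ) : ℤ) =
      ∑ e ∈ (Finset.univ.erase i).erase j, ((e : ℕ) : ℤ) * (((w e : Fin n) : ℕ) : ℤ) := by
    refine Finset.sum_congr rfl fun e he => ?_
    rw [Finset.mem_erase, Finset.mem_erase] at he
    rw [hag e he.2.1 he.1]
  rw [hrest]
  have h1 : ((i : ℕ) : ℤ) < ((j : ℕ) : ℤ) := by exact_mod_cast hij
  have h2 : (((w j : Fin n) : ℕ) : ℤ) < (((w i : Fin n) : ℕ) : ℤ) := by exact_mod_cast hw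
  nlinarith [mul_pos (sub_pos.mpr h1) (sub_pos.mpr h2)]

open Classical in
/-- The permutations with the same `RR` and the same values outside. -/
noncomputable def cls (x : Perm (Fin a)) (y : Perm (Fin b)) (w : Perm (Fin n)) :
    Finset (Perm (Fin n)) :=
  Finset.univ.filter fun w' => (∀ e, RR x y w' e ↔ RR x y w e) ∧ ∀ e, ¬ RR x y w e → w' e = w e

theorem exists_sorted (x : Perm (Fin a)) (y : Perm (Fin b)) (w : Perm (Fin n)) :
    ∃ w' : Perm (Fin n), (∀ e, RR x y w' e ↔ RR x y w e) ∧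
      (∀ e, ¬ RR x y w e → w' e = w e) ∧
      ¬ Contains w' (dsum (dsum x (Equiv.swap 0 1 : Perm (Fin 2))) y) := by
  classical
  have hne : (cls x y w).Nonempty := ⟨w, by simp [cls]⟩
  obtain ⟨w', hw', hmax⟩ := Finset.exists_max_image (cls x y w) wt hne
  rw [cls, Finset.mem_filter] at hw'
  refine ⟨w', hw'.2.1, hw'.2.2, fun hc => ?_⟩
  obtain ⟨i, j, hij, hw, hx, hy⟩ := contains21.mp hc
  have h1 : (Equiv.swap i j).trans w' ∈ cls x y w := by
    rw [cls, Finset.mem_filter]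
    refine ⟨Finset.mem_univ _, fun e => (RR_swap hij hw hx hy e).trans (hw'.2.1 e),
      fun e he => ?_⟩
    have hi : RR x y w' i := ⟨hx.mono le_rfl hw.le, hy.mono hij.le le_rfl⟩
    have hj : RR x y w' j := ⟨hx.mono hij.le le_rfl, hy.mono le_rfl hw.le⟩
    have hei : e ≠ i := by rintro rfl; exact he ((hw'.2.1 _).mp hi)
    have hej : e ≠ j := by rintro rfl; exact he ((hw'.2.1 _).mp hj)
    rw [Equiv.trans_apply, Equiv.swap_apply_of_ne_of_ne hei hej]
    exact hw'.2.2 e he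
  exact absurd (hmax _ h1) (not_le.mpr (wt_swap hij hw))

/-- Two permutations that agree outside `S` and are decreasing on `S` are equal. -/
theorem eq_of_anti {w₁ w₂ : Perm (Fin n)} {S : Fin n → Prop}
    (hout : ∀ e, ¬ S e → w₁ e = w₂ e)
    (h1 : ∀ i j, i < j → S i → S j → w₁ j < w₁ i)
    (h2 : ∀ i j, i < j → S i → S j → w₂ j < w₂ i) : w₁ = w₂ := by
  have hr : Set.range (fun e : {e // S e} => w₁ e.1) = Set.range (fun e : {e // S e} => w₂ e.1) := by
    have key : ∀ {u v : Perm (Fin n)}, (∀ e, ¬ S e → u e = v e) →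
        ∀ z, z ∈ Set.range (fun e : {e // S e} => u e.1) →
        z ∈ Set.range (fun e : {e // S e} => v e.1) := by
      rintro u v huv z ⟨⟨e, he⟩, rfl⟩
      by_cases hs : S (v.symm (u e))
      · exact ⟨⟨_, hs⟩, by simp⟩
      · exfalso
        have h3 := huv _ hs
        rw [Equiv.apply_symm_apply] at h3
        have h4 := u.injective h3
        rw [h4] at hs
        exact hs he
    exact Set.Subset.antisymm (fun z hz => key hout z hz)
      (fun z hz => key (fun e he => (hout e he).symm) z hz)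
  have e1 : StrictAnti (fun e : {e // S e} => w₁ e.1) := fun p q hpq => h1 _ _ hpq p.2 q.2
  have e2 : StrictAnti (fun e : {e // S e} => w₂ e.1) := fun p q hpq => h2 _ _ hpq p.2 q.2
  have heq := (StrictAnti.range_inj e1 e2).mp hr
  ext e
  by_cases he : S e
  · exact congrArg Fin.val (congrFun heq ⟨e, he⟩)
  · rw [hout e he]

/-- **Swap dominance**: `x ⊕ 12 ⊕ y` has at most as many avoiders as `x ⊕ 21 ⊕ y`. -/
theorem swap_dominance (x : Perm (Fin a)) (y : Perm (Fin b)) (n : ℕ) :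
    avCount n (dsum (dsum x (1 : Perm (Fin 2))) y) ≤
      avCount n (dsum (dsum x (Equiv.swap 0 1 : Perm (Fin 2))) y) := by
  classical
  choose φ h1 h2 h3 using fun w : Perm (Fin n) => exists_sorted x y w
  unfold avCount
  refine Finset.card_le_card_of_injOn φ ?_ ?_
  · intro w _
    simp only [Finset.coe_filter, Finset.mem_univ, true_and, Set.mem_ofPred_eq]
    exact h3 w
  · intro w₁ hw₁ w₂ hw₂ heq
    simp only [Finset.coe_filter, Finset.mem_univ, true_and, Set.mem_ofPred_eq] at hw₁ hw₂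
    have hS : ∀ e, RR x y w₂ e ↔ RR x y w₁ e := by
      intro e; rw [← h1 w₂, ← heq, h1 w₁]
    refine eq_of_anti (S := RR x y w₁) (fun e he => ?_) ?_ ?_
    · rw [← h2 w₁ e he, heq, h2 w₂ e (fun h => he ((hS e).mp h))]
    · intro i j hij hi hj
      rcases lt_or_ge (w₁ i) (w₁ j) with h | h
      · exact absurd (contains12.mpr ⟨i, j, hij, h, hi.1, hj.2⟩) hw₁
      · exact lt_of_le_of_ne h (fun h' => hij.ne' (w₁.injective h'))
    · intro i j hij hi hj
      rw [← hS] at hi hj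
      rcases lt_or_ge (w₂ i) (w₂ j) with h | h
      · exact absurd (contains12.mpr ⟨i, j, hij, h, hi.1, hj.2⟩) hw₂
      · exact lt_of_le_of_ne h (fun h' => hij.ne' (w₂.injective h'))

theorem Contains.trans {k l n : ℕ} {w : Perm (Fin n)} {p : Perm (Fin k)} {q : Perm (Fin l)}
    (h1 : Contains w p) (h2 : Contains p q) : Contains w q := by
  obtain ⟨f, hf, hf'⟩ := h1
  obtain ⟨g, hg, hg'⟩ := h2
  exact ⟨fun s => f (g s), fun s t hst => hf (hg hst), fun s t => by rw [hf', hg']⟩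

theorem avCount_mono {k l : ℕ} {p : Perm (Fin k)} {q : Perm (Fin l)} (h : Contains p q) (n : ℕ) :
    avCount n q ≤ avCount n p := by
  classical
  unfold avCount
  refine Finset.card_le_card fun w hw => ?_
  rw [Finset.mem_filter] at hw ⊢
  exact ⟨hw.1, fun hc => hw.2 (hc.trans h)⟩

/-- Swap dominance together with the monotonicity of avoidance. -/
theorem swap_dominance_gen {k l : ℕ} (x : Perm (Fin a)) (y : Perm (Fin b))
    (σ : Perm (Fin k)) (τ : Perm (Fin l))
    (hσ : Contains (dsum (dsum x (1 : Perm (Fin 2))) y) σ)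
    (hτ : Contains τ (dsum (dsum x (Equiv.swap 0 1 : Perm (Fin 2))) y)) (n : ℕ) :
    avCount n σ ≤ avCount n τ :=
  ((avCount_mono hσ n).trans (swap_dominance x y n)).trans (avCount_mono hτ n)

end Pool.Agent.helper48.PP
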