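import Pool.Agent.helper48.PP.Std
import Pool.Agent.helper48.PP.Swap

/-!
The upper bound by merges: an avoider of `x ⊕ 12 ⊕ y` is the union of a decreasing sequence and
an avoider of `x ⊕ 1 ⊕ y`.
-/

namespace Pool.Agent.helper48.PP

open Equiv Finset Function

variable {a b n : ℕ}

/-- The minimal points having a copy of `x` below and to the left. -/
def Qm (x : Perm (Fin a)) (w : Perm (Fin n)) (i : Fin n) : Prop :=
  XB x w i (w i) ∧ ∀ i', i' < i → w i' < w i → ¬ XB x w i' (w i')

theorem Qm_anti {x : Perm (Fin a)} {w : Perm (Fin n)} {i j : Fin n} (hij : i < j)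
    (hi : Qm x w i) (hj : Qm x w j) : w j < w i := by
  rcases lt_trichotomy (w i) (w j) with h | h | h
  · exact absurd hi.1 (hj.2 i hij h)
  · exact absurd (w.injective h) hij.ne
  · exact h

theorem exists_Qm {x : Perm (Fin a)} {w : Perm (Fin n)} (i : Fin n) (hi : XB x w i (w i)) :
    ∃ i', Qm x w i' ∧ i' ≤ i ∧ w i' ≤ w i := by
  induction i using WellFoundedLT.induction with
  | ind i ih =>
    by_cases h : Qm x w i
    · exact ⟨i, h, le_rfl, le_rfl⟩
    · unfold Qm at h
      push Not at h
      obtain ⟨i', h1, h2, h3⟩ := h hi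
      obtain ⟨i'', h4, h5, h6⟩ := ih i' h1 h3
      exact ⟨i'', h4, h5.trans h1.le, h6.trans h2.le⟩

theorem no_copy_off_Qm {x : Perm (Fin a)} {y : Perm (Fin b)} {w : Perm (Fin n)}
    (hw : ¬ Contains w (dsum (dsum x (1 : Perm (Fin 2))) y)) (f : Fin (a + 1 + b) → Fin n)
    (hf : IsCopy w (dsum (dsum x (1 : Perm (Fin 1))) y) f) (hq : ∀ s, ¬ Qm x w (f s)) : False := by
  obtain ⟨H1, H2, H3⟩ := isCopy_dsum hf
  obtain ⟨H4, -, H6⟩ := isCopy_dsum H1
  set c := f (Fin.castAdd b (Fin.natAdd a 0)) with hc
  have hxc : XB x w c (w c) := ⟨_, H4, fun s => H6 s 0⟩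
  have hyc : YB y w c (w c) := ⟨_, H2, fun s => H3 (Fin.natAdd a 0) s⟩
  obtain ⟨i', h1, h2, h3⟩ := exists_Qm c hxc
  have hne : i' ≠ c := by
    rintro rfl
    exact hq _ h1
  exact hw (contains12.mpr ⟨i', c, lt_of_le_of_ne h2 hne,
    lt_of_le_of_ne h3 (fun h => hne (w.injective h)), h1.1, hyc⟩)

/-- The pattern of `w` on the set `S` of positions. -/
noncomputable def patt (w : Perm (Fin n)) (S : Finset (Fin n)) : Perm (Fin S.card) :=
  std (X := {i // i ∈ S}) (by simp) (fun i => (i.1 : ℕ)) (fun i => (w i.1 : ℕ))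
    (fun i i' h => Subtype.ext (Fin.ext h)) (fun i i' h => Subtype.ext (w.injective (Fin.ext h)))

theorem patt_contains {k : ℕ} {w : Perm (Fin n)} {S : Finset (Fin n)} {p : Perm (Fin k)}
    (h : Contains (patt w S) p) : ∃ f, IsCopy w p f ∧ ∀ s, f s ∈ S := by
  obtain ⟨f, hf, hf'⟩ := h
  set R := rk (X := {i // i ∈ S}) (n := S.card) (by simp) (fun i => (i.1 : ℕ))
    (fun i i' h => Subtype.ext (Fin.ext h)) with hR
  refine ⟨fun s => (R.symm (f s)).1, ⟨fun s t hst => ?_, fun s t => ?_⟩, fun s => (R.symm (f s)).2⟩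
  · have h1 := hf hst
    rw [← Equiv.apply_symm_apply R (f s), ← Equiv.apply_symm_apply R (f t)] at h1
    exact (rk_lt (X := {i // i ∈ S}) _ (fun i => (i.1 : ℕ)) _ (R.symm (f s))
      (R.symm (f t))).mp h1
  · rw [← hf' s t]
    have h1 : ∀ s, patt w S (f s) = rk (X := {i // i ∈ S}) (n := S.card) (by simp)
      (fun i => (w i.1 : ℕ)) (fun i i' h => Subtype.ext (w.injective (Fin.ext h)))
        (R.symm (f s)) := fun s => rfl
    rw [h1, h1, rk_lt, Fin.lt_def]

theorem patt_inj {w w' : Perm (Fin n)} {S : Finset (Fin n)} (hV : S.image w = S.image w')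
    (h : patt w S = patt w' S) : ∀ i ∈ S, w i = w' i := by
  classical
  intro i hi
  set x : {i // i ∈ S} := ⟨i, hi⟩ with hx
  have hr : ∀ w : Perm (Fin n), (rk (X := {i // i ∈ S}) (n := S.card) (by simp)
      (fun i => (w i.1 : ℕ)) (fun i i' h => Subtype.ext (w.injective (Fin.ext h))) x : ℕ) =
      ((S.image w).filter fun v => v < w i).card := by
    intro w
    rw [rk_val]
    refine Finset.card_bij (fun y _ => w y.1) (fun y hy => ?_) (fun y _ y' _ h => ?_)
      (fun v hv => ?_)
    · rw [Finset.mem_filter] at hy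
      rw [Finset.mem_filter, Finset.mem_image]
      exact ⟨⟨y.1, y.2, rfl⟩, hy.2⟩
    · exact Subtype.ext (w.injective h)
    · rw [Finset.mem_filter, Finset.mem_image] at hv
      obtain ⟨⟨y, hy, rfl⟩, h2⟩ := hv
      exact ⟨⟨y, hy⟩, by rw [Finset.mem_filter]; exact ⟨Finset.mem_univ _, h2⟩, rfl⟩
  have h1 := congrArg (fun u : Perm (Fin S.card) => (u (rk (X := {i // i ∈ S}) (n := S.card)
    (by simp) (fun i => (i.1 : ℕ)) (fun i i' h => Subtype.ext (Fin.ext h)) x) : ℕ)) h
  simp only [patt, std_apply] at h1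
  rw [hr, hr, ← hV] at h1
  have hmem : w i ∈ S.image w := Finset.mem_image_of_mem _ hi
  have hmem' : w' i ∈ S.image w := by rw [hV]; exact Finset.mem_image_of_mem _ hi
  have key : ∀ u v : Fin n, u ∈ S.image w → u < v →
      ((S.image w).filter fun z => z < u).card < ((S.image w).filter fun z => z < v).card := by
    intro u v hu huv
    refine Finset.card_lt_card ?_
    rw [Finset.ssubset_iff_of_subset]
    · exact ⟨u, by rw [Finset.mem_filter]; exact ⟨hu, huv⟩, by simp⟩
    · intro z hz
      rw [Finset.mem_filter] at hz ⊢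
      exact ⟨hz.1, hz.2.trans huv⟩
  rcases lt_trichotomy (w i) (w' i) with h2 | h2 | h2
  · have := key _ _ hmem h2; omega
  · exact h2
  · have := key _ _ hmem' h2; omega

theorem upper_count (x : Perm (Fin a)) (y : Perm (Fin b)) (n : ℕ) :
    avCount n (dsum (dsum x (1 : Perm (Fin 2))) y) ≤
      ∑ m ∈ Finset.range (n + 1), n.choose m * n.choose m *
        avCount m (dsum (dsum x (1 : Perm (Fin 1))) y) := by
  classical
  set q := dsum (dsum x (1 : Perm (Fin 2))) y with hq
  set p := dsum (dsum x (1 : Perm (Fin 1))) y with hp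
  let S : Perm (Fin n) → Finset (Fin n) := fun w => Finset.univ.filter fun i => ¬ Qm x w i
  let T : Finset (Finset (Fin n) × Finset (Fin n)) :=
    Finset.univ.filter fun t => t.2.card = t.1.card
  have hmaps : ∀ w ∈ (Finset.univ.filter fun w : Perm (Fin n) => ¬ Contains w q),
      (fun w : Perm (Fin n) => (S w, (S w).image w)) w ∈ T := by
    intro w _
    rw [Finset.mem_filter]
    exact ⟨Finset.mem_univ _, Finset.card_image_of_injective _ w.injective⟩
  have hfib : ∀ t ∈ T, ((Finset.univ.filter fun w : Perm (Fin n) => ¬ Contains w q).filter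
      fun w => (S w, (S w).image w) = t).card ≤ avCount t.1.card p := by
    rintro ⟨S₀, V₀⟩ -
    unfold avCount
    refine Finset.card_le_card_of_injOn (fun w => patt w S₀) (fun w hw => ?_) ?_
    · simp only [Finset.coe_filter, Finset.mem_filter, Finset.mem_univ, true_and,
        Set.mem_ofPred_eq, Prod.mk.injEq] at hw ⊢
      intro hc
      obtain ⟨f, hf, hf'⟩ := patt_contains hc
      refine no_copy_off_Qm hw.1 f hf fun s => ?_
      have := hf' s
      rw [← hw.2.1] at this
      exact (Finset.mem_filter.mp this).2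
    · intro w hw w' hw' heq
      simp only [Finset.coe_filter, Finset.mem_filter, Finset.mem_univ, true_and,
        Set.mem_ofPred_eq, Prod.mk.injEq] at hw hw'
      have hV : S₀.image w = S₀.image w' := by
        have h1 := hw.2.2; have h2 := hw'.2.2
        rw [hw.2.1] at h1; rw [hw'.2.1] at h2
        rw [h1, h2]
      have h3 := patt_inj hV heq
      have hS : ∀ i, i ∉ S₀ ↔ Qm x w i := by
        intro i; rw [← hw.2.1]; simp [S]
      have hS' : ∀ i, i ∉ S₀ ↔ Qm x w' i := by
        intro i; rw [← hw'.2.1]; simp [S]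
      refine eq_of_anti (S := fun i => i ∉ S₀) (fun e he => h3 e (not_not.mp he)) ?_ ?_
      · intro i j hij hi hj
        exact Qm_anti hij ((hS i).mp hi) ((hS j).mp hj)
      · intro i j hij hi hj
        exact Qm_anti hij ((hS' i).mp hi) ((hS' j).mp hj)
  have hsum : ∑ t ∈ T, avCount t.1.card p =
      ∑ m ∈ Finset.range (n + 1), n.choose m * n.choose m * avCount m p := by
    rw [Finset.sum_filter, ← Finset.univ_product_univ, Finset.sum_product]
    have h1 : ∀ S₁ : Finset (Fin n), (∑ V₁ : Finset (Fin n),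
        if V₁.card = S₁.card then avCount S₁.card p else 0) =
        n.choose S₁.card * avCount S₁.card p := by
      intro S₁
      rw [← Finset.sum_filter, Finset.sum_const, smul_eq_mul]
      congr 1
      have : (Finset.univ.filter fun V₁ : Finset (Fin n) => V₁.card = S₁.card) =
        Finset.powersetCard S₁.card Finset.univ := by
        ext V; simp [Finset.mem_powersetCard]
      rw [this, Finset.card_powersetCard, Finset.card_univ, Fintype.card_fin]
    simp only [h1]
    have h2 := Finset.sum_powerset_apply_card (x := (Finset.univ : Finset (Fin n)))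
      (fun m => n.choose m * avCount m p)
    rw [Finset.powerset_univ, Finset.card_univ, Fintype.card_fin] at h2
    rw [h2]
    refine Finset.sum_congr rfl fun m _ => ?_
    rw [smul_eq_mul, mul_assoc]
  have h0 : avCount n q = (Finset.univ.filter fun w : Perm (Fin n) => ¬ Contains w q).card := by
    unfold avCount; congr
  rw [h0, Finset.card_eq_sum_card_fiberwise hmaps, ← hsum]
  exact Finset.sum_le_sum hfib

end Pool.Agent.helper48.PP
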