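import Pool.Agent.helper48.PP.MT
import Pool.Agent.helper48.PP.Count
import Pool.Agent.helper48.PP.Upper
import Pool.Agent.helper48.PP.Growth

/-!
Adding a new component at the end beats doubling a component.
-/

namespace Pool.Agent.helper48.PP

open Equiv Finset Function

theorem length_two_le {k : ℕ} {p : Perm (Fin (k + 1))} (hlast : p (Fin.last k) ≠ Fin.last k) :
    ∃ l, k = l + 1 := by
  rcases k with _ | l
  · exact absurd (Fin.ext (by omega)) hlast
  · exact ⟨l, rfl⟩

theorem end_insertion {a b k : ℕ} (x : Perm (Fin a)) (y : Perm (Fin b)) (p : Perm (Fin (k + 1)))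
    (hp : SkewIndec p) (hlast : p (Fin.last k) ≠ Fin.last k)
    (hle : ∀ m, avCount m (dsum (dsum x (1 : Perm (Fin 1))) y) ≤ avCount m p) :
    ∃ ρ : ℝ, 1 < ρ ∧ ∃ N, ∀ n, N ≤ n →
      ρ ^ n * (avCount n (dsum (dsum x (1 : Perm (Fin 2))) y) : ℝ) ≤
        (avCount n (dsum p (1 : Perm (Fin 1))) : ℝ) ∧
      (avCount n (dsum (dsum x (1 : Perm (Fin 2))) y) : ℝ) <
        (avCount n (dsum p (1 : Perm (Fin 1))) : ℝ) := by
  obtain ⟨l, rfl⟩ := length_two_le hlast
  obtain ⟨c, hc, hcn⟩ := stanley_wilf p
  set s : ℕ → ℝ := fun m => (avCount m p : ℝ) with hs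
  have hc' : (1:ℝ) ≤ c := by exact_mod_cast hc
  have h1 : ∀ n, 1 ≤ s n := fun n => by
    have := one_le_avCount hp (by omega) n
    simp only [hs]; exact_mod_cast this
  have h2 : ∀ m n, s m * s n ≤ s (m + n) := fun m n => by
    have := avCount_mul hp m n
    simp only [hs]; exact_mod_cast this
  have h3 : ∀ n, s n ≤ (c:ℝ) ^ n := fun n => by
    simp only [hs]; exact_mod_cast hcn n
  obtain ⟨M, q, j, hMqj⟩ := exists_stage hc' h1 h2 h3
  have ha1 := one_le_rg hc' h1 h3
  have hτ : SkewIndec (dsum p (1 : Perm (Fin 1))) := skewIndec_dsum (by omega) (by omega) _ _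
  by_cases hR : 0 < M + (q + j)
  · refine eventually_gap (Y := 1 + rg s) (by linarith) M (M + (q + j)) hR hMqj
      (fun n => Nat.cast_nonneg _) (fun n => ?_) (v := fun n =>
        (avCount n (dsum p (1 : Perm (Fin 1))) : ℝ)) (fun m n hmn => ?_) (fun K => ?_)
    · have h5 := upper_count x y n
      have h6 : (avCount n (dsum (dsum x (1 : Perm (Fin 2))) y) : ℝ) ≤
          ∑ m ∈ Finset.range (n + 1), (n.choose m : ℝ) * n.choose m * s m := by
        calc (avCount n (dsum (dsum x (1 : Perm (Fin 2))) y) : ℝ) ≤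
            ((∑ m ∈ Finset.range (n + 1), n.choose m * n.choose m *
              avCount m (dsum (dsum x (1 : Perm (Fin 1))) y) : ℕ) : ℝ) := by exact_mod_cast h5
          _ = ∑ m ∈ Finset.range (n + 1), (n.choose m : ℝ) * n.choose m *
              (avCount m (dsum (dsum x (1 : Perm (Fin 1))) y) : ℝ) := by push_cast; rfl
          _ ≤ _ := by
              refine Finset.sum_le_sum fun m _ => ?_
              refine mul_le_mul_of_nonneg_left ?_ (by positivity)
              simp only [hs]; exact_mod_cast hle m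
      exact h6.trans (merge_le hc' h1 h2 h3 n)
    · have := avCount_monotone hτ (by omega) hmn
      simp only at this ⊢
      exact_mod_cast this
    · have h7 := lower_count hp hlast M q j (one_le_avCount hp (by omega) M) K
      simp only [hs]
      exact_mod_cast h7
  · exfalso
    have hM : M = 0 := by omega
    have hq : q = 0 := by omega
    have hj : j = 0 := by omega
    subst hM hq hj
    have h8 := le_rg_pow hc' h1 h2 h3 0
    simp at hMqj h8
    linarith

end Pool.Agent.helper48.PP
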