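import Pool.Agent.helper48.PP.Std

/-!
One stage of the staircase construction: from a permutation of length `N` we pass to a
permutation of length `N + (M + (q + j))`.
-/

namespace Pool.Agent.helper48.PP

open Equiv Finset Function

variable {k N M q j : ℕ}

/-- No cut of the one line form of `p` has all entries before it larger than all entries after
it: `p` is not a skew sum. -/
def SkewIndec {k : ℕ} (p : Perm (Fin k)) : Prop :=
  ∀ c : ℕ, 0 < c → c < k → ∃ i j : Fin k, (i : ℕ) < c ∧ c ≤ (j : ℕ) ∧ p i < p j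

theorem SkewIndec.split {p : Perm (Fin k)} (hp : SkewIndec p) {S : Fin k → Prop}
    (hS : ∀ s t, s < t → S t → S s) {s₀ t₀ : Fin k} (hs₀ : S s₀) (ht₀ : ¬ S t₀) :
    ∃ i j, S i ∧ ¬ S j ∧ p i < p j := by
  classical
  have hex : ∃ c : ℕ, ∃ h : c < k, ¬ S ⟨c, h⟩ := ⟨t₀, t₀.2, ht₀⟩
  obtain ⟨hc, hc'⟩ := Nat.find_spec hex
  set c := Nat.find hex with hcdef
  have hmin : ∀ d, d < c → ∀ hd : d < k, S ⟨d, hd⟩ := by
    intro d hd hdk
    by_contra hn
    exact Nat.find_min hex hd ⟨hdk, hn⟩
  have hc0 : 0 < c := by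
    rcases Nat.eq_zero_or_pos c with h0 | h0
    · exfalso
      apply hc'
      rcases (lt_or_eq_of_le (show (⟨c, hc⟩ : Fin k) ≤ s₀ by rw [Fin.le_def]; simp [h0]))
        with h1 | h1
      · exact hS _ _ h1 hs₀
      · rw [h1]; exact hs₀
    · exact h0
  obtain ⟨i, jj, h1, h2, h3⟩ := hp c hc0 hc
  refine ⟨i, jj, hmin i h1 i.2, fun hj => ?_, h3⟩
  rcases lt_or_eq_of_le h2 with h4 | h4
  · exact hc' (hS ⟨c, hc⟩ jj (by rw [Fin.lt_def]; exact h4) hj)
  · apply hc'
    have : (⟨c, hc⟩ : Fin k) = jj := Fin.ext h4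
    rw [this]; exact hj

/-- The invariant of the construction. The elements outside `U` avoid `p`, no element of `U` is
below and to the left of an element outside `U`, and an element of `U` below and to the left of
an element of `U` is its nearest such element. -/
structure Good {X : Type*} (p : Perm (Fin k)) (pos val : X → ℕ) (U : X → Prop) : Prop where
  g1 : ∀ h : Fin k → X, (∀ s, ¬ U (h s)) → (∀ s t, s < t → pos (h s) < pos (h t)) →
    (∀ s t, val (h s) < val (h t) ↔ p s < p t) → False
  g2 : ∀ x y, U x → pos x < pos y → val x < val y → U y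
  g3 : ∀ x y z, U x → U y → pos x < pos y → val x < val y → z ≠ x → pos z < pos y →
    val z < val y → pos z < pos x ∧ val z < val x

theorem Good.congr {X Y : Type*} {p : Perm (Fin k)} {pos val : X → ℕ} {U : X → Prop}
    (H : Good p pos val U) {pos' val' : Y → ℕ} (e : Y ≃ X)
    (h1 : ∀ y y', pos' y < pos' y' ↔ pos (e y) < pos (e y'))
    (h2 : ∀ y y', val' y < val' y' ↔ val (e y) < val (e y')) :
    Good p pos' val' (fun y => U (e y)) where
  g1 := fun h hU hm hi => H.g1 (fun s => e (h s)) hU (fun s t hst => (h1 _ _).mp (hm s t hst))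
    (fun s t => (h2 _ _).symm.trans (hi s t))
  g2 := fun x y hx hp hv => H.g2 (e x) (e y) hx ((h1 _ _).mp hp) ((h2 _ _).mp hv)
  g3 := fun x y z hx hy hp hv hz hzp hzv => by
    have := H.g3 (e x) (e y) (e z) hx hy ((h1 _ _).mp hp) ((h2 _ _).mp hv)
      (fun h => hz (e.injective h)) ((h1 _ _).mp hzp) ((h2 _ _).mp hzv)
    exact ⟨(h1 _ _).mpr this.1, (h2 _ _).mpr this.2⟩

/-- A good permutation: there is a set `U` of positions as above, and the `M` smallest values are
outside `U`. -/
def GoodP (M : ℕ) (p : Perm (Fin k)) (w : Perm (Fin N)) : Prop :=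
  ∃ U : Fin N → Prop, Good p (fun i : Fin N => (i : ℕ)) (fun i => (w i : ℕ)) U ∧
    ∀ i, (w i : ℕ) < M → ¬ U i

/-- Good permutations avoid `p ⊕ 1`, if `p` does not end with its maximum. -/
theorem GoodP.avoid {p : Perm (Fin (k + 1))} {w : Perm (Fin N)} (H : GoodP M p w)
    (hlast : p (Fin.last k) ≠ Fin.last k) : ¬ Contains w (dsum p (1 : Perm (Fin 1))) := by
  obtain ⟨U, H, -⟩ := H
  rintro ⟨f, hf⟩
  obtain ⟨H1, -, H3⟩ := isCopy_dsum hf
  set z := f (Fin.natAdd (k + 1) 0) with hz
  set h : Fin (k + 1) → Fin N := fun s => f (Fin.castAdd 1 s) with hh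
  have hpos : ∀ s, (h s : ℕ) < z := fun s => (H3 s 0).1
  have hval : ∀ s, (w (h s) : ℕ) < w z := fun s => (H3 s 0).2
  have hex : ∃ s, U (h s) := by
    by_contra hn
    push Not at hn
    exact H.g1 h hn (fun s t hst => H1.1 hst) (fun s t => H1.2 s t)
  obtain ⟨s, hs⟩ := hex
  have hUz : U z := H.g2 (h s) z hs (hpos s) (hval s)
  have hall : ∀ t, t ≠ s → h t < h s ∧ w (h t) < w (h s) := by
    intro t ht
    exact H.g3 (h s) z (h t) hs hUz (hpos s) (hval s) (fun hc => ht (H1.1.injective hc))
      (hpos t) (hval t)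
  apply hlast
  have hs1 : s = Fin.last k := by
    by_contra hn
    have h1 := (hall (Fin.last k) (Ne.symm hn)).1
    have h2 := H1.1.lt_iff_lt.mp h1
    exact absurd h2 (not_lt.mpr (Fin.le_last s))
  subst hs1
  by_contra hn
  have h5 : p (p.symm (Fin.last k)) = Fin.last k := by simp
  have h6 : p.symm (Fin.last k) ≠ Fin.last k := by
    intro h7; rw [h7] at h5; exact hn h5
  have h8 := (H1.2 _ _).mp (hall _ h6).2
  rw [h5] at h8
  exact absurd h8 (not_lt.mpr (Fin.le_last _))

/-- The key of a block of `M` elements and `q` units, `j` of which are doubled. -/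
def bkey (e : Fin M ⊕ Fin q ≃ Fin (M + q)) (D : Fin j → Fin q) :
    Fin M ⊕ (Fin q ⊕ Fin j) → ℕ
  | Sum.inl i => 2 * (e (Sum.inl i) : ℕ)
  | Sum.inr (Sum.inl u) => 2 * (e (Sum.inr u) : ℕ)
  | Sum.inr (Sum.inr l) => 2 * (e (Sum.inr (D l)) : ℕ) + 1

theorem bkey_lt (e : Fin M ⊕ Fin q ≃ Fin (M + q)) (D : Fin j → Fin q)
    (x : Fin M ⊕ (Fin q ⊕ Fin j)) : bkey e D x < 2 * (M + q) := by
  rcases x with i | u | l
  · have := (e (Sum.inl i)).2; simp only [bkey]; omega
  · have := (e (Sum.inr u)).2; simp only [bkey]; omega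
  · have := (e (Sum.inr (D l))).2; simp only [bkey]; omega

theorem bkey_inj (e : Fin M ⊕ Fin q ≃ Fin (M + q)) {D : Fin j → Fin q} (hD : Injective D) :
    Injective (bkey e D) := by
  intro x y h
  rcases x with i | u | l <;> rcases y with i' | u' | l' <;> simp only [bkey] at h
  · have h1 := e.injective (Fin.ext (show (e (Sum.inl i) : ℕ) = e (Sum.inl i') by omega))
    simp at h1; rw [h1]
  · have h1 := e.injective (Fin.ext (show (e (Sum.inl i) : ℕ) = e (Sum.inr u') by omega))
    simp at h1
  · omega
  · have h1 := e.injective (Fin.ext (show (e (Sum.inr u) : ℕ) = e (Sum.inl i') by omega))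
    simp at h1
  · have h1 := e.injective (Fin.ext (show (e (Sum.inr u) : ℕ) = e (Sum.inr u') by omega))
    simp at h1; rw [h1]
  · omega
  · omega
  · omega
  · have h1 := e.injective (Fin.ext (show (e (Sum.inr (D l)) : ℕ) = e (Sum.inr (D l')) by omega))
    simp at h1; rw [hD h1]

/-- Positions. -/
def pk (N : ℕ) (e : Fin M ⊕ Fin q ≃ Fin (M + q)) (D : Fin j → Fin q) :
    Fin N ⊕ (Fin M ⊕ (Fin q ⊕ Fin j)) → ℕ
  | Sum.inl i => i
  | Sum.inr x => N + bkey e D x

/-- Values. -/
def vk (w : Perm (Fin N)) (σ : Perm (Fin M)) (e : Fin M ⊕ Fin q ≃ Fin (M + q))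
    (D : Fin j → Fin q) : Fin N ⊕ (Fin M ⊕ (Fin q ⊕ Fin j)) → ℕ
  | Sum.inl i => if h : (w i : ℕ) < M then M + bkey e D (Sum.inl ⟨w i, h⟩) else
      M + 2 * (M + q) + w i
  | Sum.inr (Sum.inl i) => σ i
  | Sum.inr (Sum.inr y) => M + bkey e D (Sum.inr y)

theorem pk_inj (e : Fin M ⊕ Fin q ≃ Fin (M + q)) {D : Fin j → Fin q} (hD : Injective D) :
    Injective (pk N e D) := by
  intro x y h
  rcases x with i | x <;> rcases y with i' | y <;> simp only [pk] at h
  · rw [Fin.ext h]
  · have := i.2; omega
  · have := i'.2; omega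
  · rw [bkey_inj e hD (show bkey e D x = bkey e D y by omega)]

theorem vk_inj (w : Perm (Fin N)) (σ : Perm (Fin M)) (e : Fin M ⊕ Fin q ≃ Fin (M + q))
    {D : Fin j → Fin q} (hD : Injective D) : Injective (vk w σ e D) := by
  intro x y h
  rcases x with i | i | x <;> rcases y with i' | i' | y
  · simp only [vk] at h
    split_ifs at h with h1 h2 h2
    · have h3 := bkey_inj e hD (show bkey e D (Sum.inl ⟨w i, h1⟩) = bkey e D (Sum.inl ⟨w i', h2⟩)
        by omega)
      simp only [Sum.inl.injEq, Fin.mk.injEq] at h3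
      rw [w.injective (Fin.ext h3)]
    · have := bkey_lt e D (Sum.inl ⟨w i, h1⟩); omega
    · have := bkey_lt e D (Sum.inl ⟨w i', h2⟩); omega
    · rw [w.injective (Fin.ext (show (w i : ℕ) = w i' by omega))]
  · simp only [vk] at h
    have := (σ i').2
    split_ifs at h <;> omega
  · simp only [vk] at h
    split_ifs at h with h1
    · have h3 := bkey_inj e hD (show bkey e D (Sum.inl ⟨w i, h1⟩) = bkey e D (Sum.inr y) by omega)
      simp at h3
    · have := bkey_lt e D (Sum.inr y); omega
  · simp only [vk] at h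
    have := (σ i).2
    split_ifs at h <;> omega
  · simp only [vk] at h
    rw [σ.injective (Fin.ext h)]
  · simp only [vk] at h
    have := (σ i).2
    omega
  · simp only [vk] at h
    split_ifs at h with h1
    · have h3 := bkey_inj e hD (show bkey e D (Sum.inr x) = bkey e D (Sum.inl ⟨w i', h1⟩) by omega)
      simp at h3
    · have := bkey_lt e D (Sum.inr x); omega
  · simp only [vk] at h
    have := (σ i').2
    omega
  · simp only [vk] at h
    rw [bkey_inj e hD (show bkey e D (Sum.inr x) = bkey e D (Sum.inr y) by omega)]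

theorem vk_old {w : Perm (Fin N)} {σ : Perm (Fin M)} {e : Fin M ⊕ Fin q ≃ Fin (M + q)}
    {D : Fin j → Fin q} (he : StrictMono fun i : Fin M => e (Sum.inl i)) (i i' : Fin N) :
    vk w σ e D (Sum.inl i) < vk w σ e D (Sum.inl i') ↔ (w i : ℕ) < w i' := by
  simp only [vk]
  split_ifs with h1 h2 h2
  · simp only [bkey]
    have h3 := he.lt_iff_lt (a := ⟨(w i : ℕ), h1⟩) (b := ⟨(w i' : ℕ), h2⟩)
    simp only [Fin.lt_def] at h3
    rw [← h3]
    omega
  · have := bkey_lt e D (Sum.inl ⟨w i, h1⟩)
    omega
  · have := bkey_lt e D (Sum.inl ⟨w i', h2⟩)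
    omega
  · omega

theorem vk_old_ge {w : Perm (Fin N)} {σ : Perm (Fin M)} {e : Fin M ⊕ Fin q ≃ Fin (M + q)}
    {D : Fin j → Fin q} (i : Fin N) : M ≤ vk w σ e D (Sum.inl i) := by
  simp only [vk]
  split_ifs <;> omega

/-- The set `U` after a stage. -/
def Unew (U : Fin N → Prop) : Fin N ⊕ (Fin M ⊕ (Fin q ⊕ Fin j)) → Prop
  | Sum.inl i => U i
  | Sum.inr (Sum.inl _) => False
  | Sum.inr (Sum.inr _) => True

theorem pk_split {e : Fin M ⊕ Fin q ≃ Fin (M + q)} {D : Fin j → Fin q}
    {x y : Fin N ⊕ (Fin M ⊕ (Fin q ⊕ Fin j))} (h : pk N e D x < pk N e D y)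
    (hy : ∃ i, y = Sum.inl i) : ∃ i, x = Sum.inl i := by
  obtain ⟨i, rfl⟩ := hy
  rcases x with i' | x
  · exact ⟨i', rfl⟩
  · exfalso
    simp only [pk] at h
    have := i.2
    omega

theorem good_step {p : Perm (Fin k)} (hp : SkewIndec p) {w : Perm (Fin N)} {U : Fin N → Prop}
    (H : Good p (fun i : Fin N => (i : ℕ)) (fun i => (w i : ℕ)) U)
    (hU : ∀ i, (w i : ℕ) < M → ¬ U i) {σ : Perm (Fin M)} (hσ : ¬ Contains σ p)
    {ea eb : Fin M ⊕ Fin q ≃ Fin (M + q)} {D : Fin j → Fin q}
    (ha1 : StrictMono fun i : Fin M => ea (Sum.inl i))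
    (ha2 : StrictMono fun i : Fin q => ea (Sum.inr i))
    (hb1 : StrictMono fun i : Fin M => eb (Sum.inl i))
    (hb2 : StrictAnti fun i : Fin q => eb (Sum.inr i)) (hD : Injective D) :
    Good p (pk N ea D) (vk w σ eb D) (Unew U) where
  g1 := by
    intro h hh hm hi
    by_cases hold : ∀ s, ∃ i, h s = Sum.inl i
    · choose f hf using hold
      refine H.g1 f (fun s => ?_) (fun s t hst => ?_) (fun s t => ?_)
      · have := hh s; rw [hf s] at this; exact this
      · have := hm s t hst; rw [hf s, hf t] at this; exact this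
      · rw [← hi s t, hf s, hf t, vk_old hb1]
    · push Not at hold
      obtain ⟨t₀, ht₀⟩ := hold
      by_cases hnew : ∀ s, ∀ i, h s ≠ Sum.inl i
      · have : ∀ s, ∃ i, h s = Sum.inr (Sum.inl i) := by
          intro s
          rcases hs : h s with i | i | y
          · exact absurd hs (hnew s i)
          · exact ⟨i, rfl⟩
          · have := hh s; rw [hs] at this; exact absurd trivial this
        choose f hf using this
        apply hσ
        refine ⟨f, fun s t hst => ?_, fun s t => ?_⟩
        · have := hm s t hst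
          rw [hf s, hf t] at this
          simp only [pk, bkey] at this
          rw [← ha1.lt_iff_lt, Fin.lt_def]
          omega
        · rw [← hi s t, hf s, hf t, Fin.lt_def]
          simp only [vk]
      · push Not at hnew
        obtain ⟨s₀, i₀, hs₀⟩ := hnew
        obtain ⟨i, jj, h1, h2, h3⟩ := hp.split (S := fun s => ∃ i, h s = Sum.inl i)
          (fun s t hst ht => pk_split (hm s t hst) ht) (s₀ := s₀) ⟨i₀, hs₀⟩ (t₀ := t₀)
          (fun ⟨i, hi⟩ => ht₀ i hi)
        obtain ⟨i', hi'⟩ := h1
        have h4 := (hi i jj).mpr h3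
        rw [hi'] at h4
        have h5 := vk_old_ge (w := w) (σ := σ) (e := eb) (D := D) i'
        rcases hj : h jj with a | a | a
        · exact h2 ⟨a, hj⟩
        · rw [hj] at h4
          have h6 : vk w σ eb D (Sum.inr (Sum.inl a)) = σ a := rfl
          have := (σ a).2
          omega
        · have := hh jj; rw [hj] at this; exact this trivial
  g2 := by
    intro x y hx hp1 hv
    rcases x with i | i | x
    · have hi : ¬ (w i : ℕ) < M := fun h => hU i h hx
      have hvi : vk w σ eb D (Sum.inl i) = M + 2 * (M + q) + w i := by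
        simp only [vk]; rw [dif_neg hi]
      rcases y with i' | i' | y
      · exact H.g2 i i' hx hp1 ((vk_old hb1 i i').mp hv)
      · exfalso
        rw [hvi] at hv
        simp only [vk] at hv
        have := (σ i').2
        omega
      · exact trivial
    · exact absurd hx (fun h => h)
    · rcases y with i' | i' | y
      · exfalso
        simp only [pk] at hp1
        have := i'.2
        omega
      · exfalso
        simp only [vk] at hv
        have := (σ i').2
        omega
      · exact trivial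
  g3 := by
    intro x y z hx hy hp1 hv hz hzp hzv
    rcases x with i | i | x
    · have hi : ¬ (w i : ℕ) < M := fun h => hU i h hx
      have hvi : vk w σ eb D (Sum.inl i) = M + 2 * (M + q) + w i := by
        simp only [vk]; rw [dif_neg hi]
      rcases y with i' | i' | y
      · obtain ⟨i'', rfl⟩ := pk_split hzp ⟨i', rfl⟩
        have := H.g3 i i' i'' hx hy hp1 ((vk_old hb1 i i').mp hv) (fun h => hz (by rw [h])) hzp
          ((vk_old hb1 i'' i').mp hzv)
        exact ⟨this.1, (vk_old hb1 i'' i).mpr this.2⟩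
      · exact absurd hy (fun h => h)
      · exfalso
        rw [hvi] at hv
        simp only [vk] at hv
        have := bkey_lt eb D (Sum.inr y)
        omega
    · exact absurd hx (fun h => h)
    · rcases y with i' | i' | y
      · exfalso
        simp only [pk] at hp1
        have := i'.2
        omega
      · exact absurd hy (fun h => h)
      · -- both are new elements of `U`
        have hzp' : pk N ea D z ≠ pk N ea D (Sum.inr (Sum.inr x)) :=
          fun h => hz (pk_inj ea hD h)
        have hzv' : vk w σ eb D z ≠ vk w σ eb D (Sum.inr (Sum.inr x)) :=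
          fun h => hz (vk_inj w σ eb hD h)
        have key : pk N ea D (Sum.inr (Sum.inr y)) = pk N ea D (Sum.inr (Sum.inr x)) + 1 ∧
            vk w σ eb D (Sum.inr (Sum.inr y)) = vk w σ eb D (Sum.inr (Sum.inr x)) + 1 := by
          have aux : ∀ u v : Fin q, (ea (Sum.inr u) : ℕ) ≤ ea (Sum.inr v) →
              (eb (Sum.inr u) : ℕ) ≤ eb (Sum.inr v) → u = v := by
            intro u v h1 h2
            have h3 : u ≤ v := ha2.le_iff_le.mp h1
            have h4 : v ≤ u := hb2.le_iff_ge.mp h2
            exact le_antisymm h3 h4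
          rcases x with u | l <;> rcases y with v | l' <;>
            simp only [pk, vk, bkey] at hp1 hv ⊢
          · have := aux u v (by omega) (by omega)
            subst this; omega
          · have := aux u (D l') (by omega) (by omega)
            subst this; omega
          · have := aux (D l) v (by omega) (by omega)
            subst this; omega
          · have := aux (D l) (D l') (by omega) (by omega)
            rw [this] at hp1
            omega
        omega

end Pool.Agent.helper48.PP
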