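import Pool.Agent.helper48.PP.Stage

/-!
The stage map is injective, and the count of good permutations.
-/

namespace Pool.Agent.helper48.PP

open Equiv Finset Function

variable {k N M q j : ℕ}

abbrev LX (N M q j : ℕ) := Fin N ⊕ (Fin M ⊕ (Fin q ⊕ Fin j))

theorem card_LX : Fintype.card (LX N M q j) = N + (M + (q + j)) := by simp [LX]

theorem rk_pk_old (e : Fin M ⊕ Fin q ≃ Fin (M + q)) {D : Fin j → Fin q} (hD : Injective D)
    (i : Fin N) : (rk card_LX (pk N e D) (pk_inj e hD) (Sum.inl i) : ℕ) = i := by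
  refine rk_eq_of _ _ _ _ (fun t : Fin N => (Sum.inl t : LX N M q j)) Sum.inl_injective i
    fun y => ?_
  constructor
  · intro h
    obtain ⟨i', rfl⟩ := pk_split h ⟨i, rfl⟩
    exact ⟨i', h, rfl⟩
  · rintro ⟨t, ht, rfl⟩
    exact ht

theorem rk_vk_sig (w : Perm (Fin N)) (σ : Perm (Fin M)) (e : Fin M ⊕ Fin q ≃ Fin (M + q))
    {D : Fin j → Fin q} (hD : Injective D) (i : Fin M) :
    (rk card_LX (vk w σ e D) (vk_inj w σ e hD) (Sum.inr (Sum.inl i)) : ℕ) = σ i := by
  refine rk_eq_of _ _ _ _ (fun t : Fin M => (Sum.inr (Sum.inl (σ.symm t)) : LX N M q j))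
    (fun t t' h => by simpa using h) (σ i) fun y => ?_
  constructor
  · intro h
    rcases y with a | a | a
    · exfalso
      have h1 := vk_old_ge (w := w) (σ := σ) (e := e) (D := D) a
      have h2 : vk w σ e D (Sum.inr (Sum.inl i)) = σ i := rfl
      have := (σ i).2
      omega
    · exact ⟨σ a, h, by simp⟩
    · exfalso
      have h1 : vk w σ e D (Sum.inr (Sum.inr a)) = M + bkey e D (Sum.inr a) := rfl
      have h2 : vk w σ e D (Sum.inr (Sum.inl i)) = σ i := rfl
      have := (σ i).2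
      omega
  · rintro ⟨t, ht, rfl⟩
    simpa [vk] using ht

/-- The new permutation. -/
noncomputable def nperm (w : Perm (Fin N)) (σ : Perm (Fin M)) (ea eb : Fin M ⊕ Fin q ≃ Fin (M + q))
    (D : Fin j → Fin q) (hD : Injective D) : Perm (Fin (N + (M + (q + j)))) :=
  std card_LX (pk N ea D) (vk w σ eb D) (pk_inj ea hD) (vk_inj w σ eb hD)

theorem goodP_nperm {p : Perm (Fin k)} (hp : SkewIndec p) {w : Perm (Fin N)}
    (H : GoodP M p w) {σ : Perm (Fin M)} (hσ : ¬ Contains σ p)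
    {ea eb : Fin M ⊕ Fin q ≃ Fin (M + q)} {D : Fin j → Fin q}
    (ha1 : StrictMono fun i : Fin M => ea (Sum.inl i))
    (ha2 : StrictMono fun i : Fin q => ea (Sum.inr i))
    (hb1 : StrictMono fun i : Fin M => eb (Sum.inl i))
    (hb2 : StrictAnti fun i : Fin q => eb (Sum.inr i)) (hD : Injective D) :
    GoodP M p (nperm w σ ea eb D hD) := by
  obtain ⟨U, H, hU⟩ := H
  have G := good_step hp H hU hσ ha1 ha2 hb1 hb2 hD
  refine ⟨_, G.congr (rk card_LX (pk N ea D) (pk_inj ea hD)).symm (fun y y' => ?_)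
    (fun y y' => ?_), fun i hi => ?_⟩
  · rw [← rk_lt card_LX (pk N ea D) (pk_inj ea hD), Equiv.apply_symm_apply,
      Equiv.apply_symm_apply, Fin.lt_def]
  · rw [← rk_lt card_LX (vk w σ eb D) (vk_inj w σ eb hD), Fin.lt_def]
    rfl
  · have h1 : (nperm w σ ea eb D hD i : ℕ) = (rk card_LX (vk w σ eb D) (vk_inj w σ eb hD)
      ((rk card_LX (pk N ea D) (pk_inj ea hD)).symm i) : ℕ) := rfl
    set x := (rk card_LX (pk N ea D) (pk_inj ea hD)).symm i with hx
    rw [h1] at hi
    set r : Fin M := ⟨_, hi⟩ with hr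
    have h2 : x = Sum.inr (Sum.inl (σ.symm r)) := by
      apply (rk card_LX (vk w σ eb D) (vk_inj w σ eb hD)).injective
      apply Fin.ext
      rw [rk_vk_sig w σ eb hD, Equiv.apply_symm_apply]
    rw [h2]
    exact fun h => h

theorem stage_inj (hNM : M ≤ N) {w w' : Perm (Fin N)} {σ σ' : Perm (Fin M)}
    {ea eb ea' eb' : Fin M ⊕ Fin q ≃ Fin (M + q)} {D D' : Fin j → Fin q}
    (ha1 : StrictMono fun i : Fin M => ea (Sum.inl i))
    (ha2 : StrictMono fun i : Fin q => ea (Sum.inr i))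
    (hb1 : StrictMono fun i : Fin M => eb (Sum.inl i))
    (hb2 : StrictAnti fun i : Fin q => eb (Sum.inr i)) (hD : StrictMono D)
    (ha1' : StrictMono fun i : Fin M => ea' (Sum.inl i))
    (ha2' : StrictMono fun i : Fin q => ea' (Sum.inr i))
    (hb1' : StrictMono fun i : Fin M => eb' (Sum.inl i))
    (hb2' : StrictAnti fun i : Fin q => eb' (Sum.inr i)) (hD' : StrictMono D')
    (h : nperm w σ ea eb D hD.injective = nperm w' σ' ea' eb' D' hD'.injective) :
    w = w' ∧ σ = σ' ∧ (∀ i u, ea (Sum.inl i) < ea (Sum.inr u) ↔ ea' (Sum.inl i) < ea' (Sum.inr u)) ∧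
    (∀ i u, eb (Sum.inl i) < eb (Sum.inr u) ↔ eb' (Sum.inl i) < eb' (Sum.inr u)) ∧ D = D' := by
  set P := rk card_LX (pk N ea D) (pk_inj ea hD.injective) with hP
  set V := rk card_LX (vk w σ eb D) (vk_inj w σ eb hD.injective) with hV
  set P' := rk card_LX (pk N ea' D') (pk_inj ea' hD'.injective) with hP'
  set V' := rk card_LX (vk w' σ' eb' D') (vk_inj w' σ' eb' hD'.injective) with hV'
  have Plt : ∀ x y, P x < P y ↔ pk N ea D x < pk N ea D y := fun x y => rk_lt _ _ _ x y
  have Vlt : ∀ x y, V x < V y ↔ vk w σ eb D x < vk w σ eb D y := fun x y => rk_lt _ _ _ x y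
  have P'lt : ∀ x y, P' x < P' y ↔ pk N ea' D' x < pk N ea' D' y := fun x y => rk_lt _ _ _ x y
  have V'lt : ∀ x y, V' x < V' y ↔ vk w' σ' eb' D' x < vk w' σ' eb' D' y :=
    fun x y => rk_lt _ _ _ x y
  set φ : LX N M q j ≃ LX N M q j := P.trans P'.symm with hφ
  have hφP : ∀ x, P' (φ x) = P x := fun x => by simp [hφ]
  have hφV : ∀ x, V' (φ x) = V x := by
    intro x
    have h1 := congrArg (fun u : Perm (Fin (N + (M + (q + j)))) => u (P x)) h
    change V (P.symm (P x)) = V' (P'.symm (P x)) at h1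
    rw [Equiv.symm_apply_apply] at h1
    exact h1.symm
  have pkφ : ∀ x y, pk N ea' D' (φ x) < pk N ea' D' (φ y) ↔ pk N ea D x < pk N ea D y := by
    intro x y; rw [← P'lt, hφP, hφP, Plt]
  have vkφ : ∀ x y, vk w' σ' eb' D' (φ x) < vk w' σ' eb' D' (φ y) ↔
      vk w σ eb D x < vk w σ eb D y := by
    intro x y; rw [← V'lt, hφV, hφV, Vlt]
  -- old elements
  have f1 : ∀ i : Fin N, φ (Sum.inl i) = Sum.inl i := by
    intro i
    apply P'.injective
    apply Fin.ext
    rw [hφP, hP, hP', rk_pk_old ea hD.injective, rk_pk_old ea' hD'.injective]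
  -- elements of `σ`
  have f2' : ∀ i : Fin M, φ (Sum.inr (Sum.inl i)) = Sum.inr (Sum.inl (σ'.symm (σ i))) := by
    intro i
    apply V'.injective
    apply Fin.ext
    rw [hφV, hV, hV', rk_vk_sig w σ eb hD.injective, rk_vk_sig w' σ' eb' hD'.injective,
      Equiv.apply_symm_apply]
  have hτ : StrictMono fun i : Fin M => σ'.symm (σ i) := by
    intro i i' hi
    have h1 : pk N ea D (Sum.inr (Sum.inl i)) < pk N ea D (Sum.inr (Sum.inl i')) := by
      simp only [pk, bkey]
      have := ha1 hi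
      simp only [Fin.lt_def] at this
      omega
    rw [← pkφ, f2', f2'] at h1
    simp only [pk, bkey] at h1
    change σ'.symm (σ i) < σ'.symm (σ i')
    refine ha1'.lt_iff_lt.mp ?_
    rw [Fin.lt_def]
    omega
  have hτ' : ∀ i : Fin M, σ'.symm (σ i) = i := fun i => strictMono_eq_id hτ i
  have hσσ : σ = σ' := by
    ext i
    rw [← Equiv.apply_symm_apply σ' (σ i), hτ']
  have f2 : ∀ i : Fin M, φ (Sum.inr (Sum.inl i)) = Sum.inr (Sum.inl i) := by
    intro i; rw [f2', hτ']
  -- elements of `U`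
  have f3 : ∀ y, ∃ y', φ (Sum.inr (Sum.inr y)) = Sum.inr (Sum.inr y') := by
    intro y
    rcases hy : φ (Sum.inr (Sum.inr y)) with a | a | a
    · rw [← f1 a] at hy; exact absurd (φ.injective hy) (by simp)
    · rw [← f2 a] at hy; exact absurd (φ.injective hy) (by simp)
    · exact ⟨a, rfl⟩
  have f3' : ∀ y', ∃ y, φ (Sum.inr (Sum.inr y)) = Sum.inr (Sum.inr y') := by
    intro y'
    rcases hy : φ.symm (Sum.inr (Sum.inr y')) with a | a | a
    · have := f1 a; rw [← hy, Equiv.apply_symm_apply, hy] at this; simp at this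
    · have := f2 a; rw [← hy, Equiv.apply_symm_apply, hy] at this; simp at this
    · exact ⟨a, by rw [← hy, Equiv.apply_symm_apply]⟩
  have single : ∀ {w : Perm (Fin N)} {σ : Perm (Fin M)} {ea eb : Fin M ⊕ Fin q ≃ Fin (M + q)}
      {D : Fin j → Fin q}, (StrictMono fun i : Fin q => ea (Sum.inr i)) →
      (StrictAnti fun i : Fin q => eb (Sum.inr i)) → ∀ (u : Fin q) (y : Fin q ⊕ Fin j),
      pk N ea D (Sum.inr (Sum.inr y)) < pk N ea D (Sum.inr (Sum.inr (Sum.inl u))) →
      ¬ vk w σ eb D (Sum.inr (Sum.inr y)) < vk w σ eb D (Sum.inr (Sum.inr (Sum.inl u))) := by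
    intro w σ ea eb D ha2 hb2 u y hp1 hv
    have aux : ∀ u v : Fin q, (ea (Sum.inr u) : ℕ) < ea (Sum.inr v) →
        (eb (Sum.inr u) : ℕ) < eb (Sum.inr v) → False := by
      intro u v h1 h2
      have h3 : u < v := ha2.lt_iff_lt.mp h1
      have h4 : v < u := hb2.lt_iff_gt.mp h2
      exact lt_asymm h3 h4
    rcases y with v | l <;> simp only [pk, vk, bkey] at hp1 hv
    · exact aux v u (by omega) (by omega)
    · exact aux (D l) u (by omega) (by omega)
  have double : ∀ {w : Perm (Fin N)} {σ : Perm (Fin M)} {ea eb : Fin M ⊕ Fin q ≃ Fin (M + q)}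
      {D : Fin j → Fin q} (l : Fin j),
      pk N ea D (Sum.inr (Sum.inr (Sum.inl (D l)))) < pk N ea D (Sum.inr (Sum.inr (Sum.inr l))) ∧
      vk w σ eb D (Sum.inr (Sum.inr (Sum.inl (D l)))) <
        vk w σ eb D (Sum.inr (Sum.inr (Sum.inr l))) := by
    intro w σ ea eb D l
    simp only [pk, vk, bkey]
    omega
  have f4 : ∀ u : Fin q, ∃ u', φ (Sum.inr (Sum.inr (Sum.inl u))) = Sum.inr (Sum.inr (Sum.inl u')) := by
    intro u
    obtain ⟨y', hy'⟩ := f3 (Sum.inl u)
    rcases y' with u' | l'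
    · exact ⟨u', hy'⟩
    · exfalso
      obtain ⟨h1, h2⟩ := double (w := w') (σ := σ') (ea := ea') (eb := eb') (D := D') l'
      obtain ⟨y, hy⟩ := f3' (Sum.inl (D' l'))
      rw [← hy', ← hy, pkφ] at h1
      rw [← hy', ← hy, vkφ] at h2
      exact single ha2 hb2 u y h1 h2
  have f5 : ∀ l : Fin j, ∃ l', φ (Sum.inr (Sum.inr (Sum.inr l))) = Sum.inr (Sum.inr (Sum.inr l')) := by
    intro l
    obtain ⟨y', hy'⟩ := f3 (Sum.inr l)
    rcases y' with u' | l'
    · exfalso
      obtain ⟨h1, h2⟩ := double (w := w) (σ := σ) (ea := ea) (eb := eb) (D := D) l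
      obtain ⟨y, hy⟩ := f3 (Sum.inl (D l))
      rw [← pkφ, hy, hy'] at h1
      rw [← vkφ, hy, hy'] at h2
      exact single ha2' hb2' u' y h1 h2
    · exact ⟨l', hy'⟩
  choose μ hμ using f4
  choose ν hν using f5
  have hμ' : ∀ u, μ u = u := by
    intro u
    refine strictMono_eq_id (f := μ) ?_ u
    intro a b hab
    have h1 : pk N ea D (Sum.inr (Sum.inr (Sum.inl a))) <
        pk N ea D (Sum.inr (Sum.inr (Sum.inl b))) := by
      simp only [pk, bkey]
      have := ha2 hab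
      simp only [Fin.lt_def] at this
      omega
    rw [← pkφ, hμ, hμ] at h1
    simp only [pk, bkey] at h1
    rw [← ha2'.lt_iff_lt, Fin.lt_def]
    omega
  have hν' : ∀ u, ν u = u := by
    intro u
    refine strictMono_eq_id (f := ν) ?_ u
    intro a b hab
    have h1 : pk N ea D (Sum.inr (Sum.inr (Sum.inr a))) <
        pk N ea D (Sum.inr (Sum.inr (Sum.inr b))) := by
      simp only [pk, bkey]
      have := ha2 (hD hab)
      simp only [Fin.lt_def] at this
      omega
    rw [← pkφ, hν, hν] at h1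
    simp only [pk, bkey] at h1
    rw [← hD'.lt_iff_lt, ← ha2'.lt_iff_lt, Fin.lt_def]
    omega
  have fid : ∀ x, φ x = x := by
    intro x
    rcases x with i | i | u | l
    · exact f1 i
    · exact f2 i
    · rw [hμ, hμ']
    · rw [hν, hν']
  have pkk : ∀ x y, pk N ea' D' x < pk N ea' D' y ↔ pk N ea D x < pk N ea D y := by
    intro x y; have := pkφ x y; rwa [fid, fid] at this
  have vkk : ∀ x y, vk w' σ' eb' D' x < vk w' σ' eb' D' y ↔ vk w σ eb D x < vk w σ eb D y := by
    intro x y; have := vkφ x y; rwa [fid, fid] at this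
  have hww : w = w' := by
    refine rk_unique w w' fun x y => ?_
    have := vkk (Sum.inl x) (Sum.inl y)
    rw [vk_old hb1, vk_old hb1'] at this
    rw [Fin.lt_def, Fin.lt_def, this]
  refine ⟨hww, hσσ, fun i u => ?_, fun i u => ?_, ?_⟩
  · have := pkk (Sum.inr (Sum.inl i)) (Sum.inr (Sum.inr (Sum.inl u)))
    simp only [pk, bkey] at this
    rw [Fin.lt_def, Fin.lt_def]
    omega
  · have hi : (w (w.symm ⟨i, i.2.trans_le hNM⟩) : ℕ) = i := by simp
    have := vkk (Sum.inl (w.symm ⟨i, i.2.trans_le hNM⟩)) (Sum.inr (Sum.inr (Sum.inl u)))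
    rw [← hww] at this
    simp only [vk, hi, Fin.is_lt, dite_true, bkey, Fin.eta] at this
    rw [Fin.lt_def, Fin.lt_def]
    omega
  · funext l
    have key : ∀ u : Fin q, u ≤ D' l ↔ u ≤ D l := by
      intro u
      have := pkk (Sum.inr (Sum.inr (Sum.inl u))) (Sum.inr (Sum.inr (Sum.inr l)))
      simp only [pk, bkey] at this
      have e1 : u ≤ D l ↔ (ea (Sum.inr u) : ℕ) ≤ ea (Sum.inr (D l)) := ha2.le_iff_le.symm
      have e2 : u ≤ D' l ↔ (ea' (Sum.inr u) : ℕ) ≤ ea' (Sum.inr (D' l)) := ha2'.le_iff_le.symm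
      rw [e1, e2]
      omega
    exact le_antisymm ((key _).mpr le_rfl) ((key _).mp le_rfl)

end Pool.Agent.helper48.PP
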